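import Mathlib

/-!
# Arcs of circles: polar coordinates and the angular measure of a planar set
-/

namespace Pool.Agent.TetraPack

open MeasureTheory Set Real
open scoped ENNReal

/-- The angles `φ ∈ (-π, π)` for which the point with polar coordinates `(s, φ)` lies in `S`. -/
def arcSet (S : Set (ℝ × ℝ)) (s : ℝ) : Set ℝ :=
  {φ | φ ∈ Ioo (-π) π ∧ (s * cos φ, s * sin φ) ∈ S}

/-- Angular measure of `S` on the circle of radius `s` around the origin. -/
noncomputable def arc (S : Set (ℝ × ℝ)) (s : ℝ) : ℝ := (volume (arcSet S s)).toReal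

/-- The open unit disc. -/
def disc : Set (ℝ × ℝ) := {y | y.1 ^ 2 + y.2 ^ 2 < 1}

lemma measurableSet_arcSet {S : Set (ℝ × ℝ)} (hS : MeasurableSet S) (s : ℝ) :
    MeasurableSet (arcSet S s) := by
  refine measurableSet_Ioo.inter ?_
  have : Measurable (fun φ : ℝ => ((s * cos φ, s * sin φ) : ℝ × ℝ)) := by fun_prop
  exact this hS

lemma volume_arcSet_le (S : Set (ℝ × ℝ)) (s : ℝ) :
    volume (arcSet S s) ≤ ENNReal.ofReal (2 * π) := by
  calc volume (arcSet S s) ≤ volume (Ioo (-π) π) := measure_mono fun φ h => h.1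
    _ = ENNReal.ofReal (2 * π) := by rw [Real.volume_Ioo]; congr 1; ring

lemma volume_arcSet_ne_top (S : Set (ℝ × ℝ)) (s : ℝ) : volume (arcSet S s) ≠ ∞ :=
  ne_top_of_le_ne_top ENNReal.ofReal_ne_top (volume_arcSet_le S s)

lemma arc_nonneg (S : Set (ℝ × ℝ)) (s : ℝ) : 0 ≤ arc S s := ENNReal.toReal_nonneg

lemma arc_mono {S T : Set (ℝ × ℝ)} {s : ℝ} (h : ∀ φ, (s * cos φ, s * sin φ) ∈ S →
    (s * cos φ, s * sin φ) ∈ T) : arc S s ≤ arc T s :=
  ENNReal.toReal_mono (volume_arcSet_ne_top T s) (measure_mono fun φ hφ => ⟨hφ.1, h φ hφ.2⟩)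

lemma ofReal_arc (S : Set (ℝ × ℝ)) (s : ℝ) : ENNReal.ofReal (arc S s) = volume (arcSet S s) :=
  ENNReal.ofReal_toReal (volume_arcSet_ne_top S s)

/-- Area of the part of the unit disc outside `S`, from below, by polar coordinates. -/
theorem area_ge {S : Set (ℝ × ℝ)} (hS : MeasurableSet S) {s₁ s₂ l : ℝ} (h0 : 0 ≤ s₁)
    (h12 : s₁ ≤ s₂) (h2 : s₂ ≤ 1) (hl : 0 ≤ l)
    (h : ∀ s ∈ Ioo s₁ s₂, arc S s ≤ 2 * π - l) :
    ENNReal.ofReal (l * (s₂ ^ 2 - s₁ ^ 2) / 2) ≤ volume (disc \ S) := by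
  have hdm : MeasurableSet disc := by
    have : Measurable (fun y : ℝ × ℝ => y.1 ^ 2 + y.2 ^ 2) := by fun_prop
    exact measurableSet_lt this measurable_const
  have hm : MeasurableSet (disc \ S) := hdm.diff hS
  have e1 : volume (disc \ S) = ∫⁻ p : ℝ × ℝ, (disc \ S).indicator 1 p := by
    rw [lintegral_indicator_one hm]
  rw [e1, ← lintegral_comp_polarCoord_symm]
  have hT : polarCoord.target = Ioi (0 : ℝ) ×ˢ Ioo (-π) π := rfl
  rw [hT]
  have hmeas : Measurable (fun p : ℝ × ℝ => ENNReal.ofReal p.1 •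
      (disc \ S).indicator (1 : ℝ × ℝ → ℝ≥0∞) (polarCoord.symm p)) := by
    have h1 : Measurable ((disc \ S).indicator (1 : ℝ × ℝ → ℝ≥0∞)) :=
      measurable_one.indicator hm
    have h2 : Measurable (fun p : ℝ × ℝ => polarCoord.symm p) :=
      continuous_polarCoord_symm.measurable
    exact (ENNReal.measurable_ofReal.comp measurable_fst).smul (h1.comp h2)
  have e2 : ∫⁻ p in (Ioi (0 : ℝ) ×ˢ Ioo (-π) π), ENNReal.ofReal p.1 •
      (disc \ S).indicator (1 : ℝ × ℝ → ℝ≥0∞) (polarCoord.symm p) =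
      ∫⁻ s in Ioi (0 : ℝ), ∫⁻ φ in Ioo (-π) π, ENNReal.ofReal s •
      (disc \ S).indicator (1 : ℝ × ℝ → ℝ≥0∞) (s * cos φ, s * sin φ) := by
    rw [Measure.volume_eq_prod, ← Measure.prod_restrict, lintegral_prod _ hmeas.aemeasurable]
    rfl
  rw [e2]
  have e3 : ∀ s ∈ Ioo s₁ s₂, ENNReal.ofReal (s * l) ≤ ∫⁻ φ in Ioo (-π) π, ENNReal.ofReal s •
      (disc \ S).indicator (1 : ℝ × ℝ → ℝ≥0∞) (s * cos φ, s * sin φ) := by
    intro s hs
    have hs0 : 0 < s := lt_of_le_of_lt h0 hs.1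
    have hs1 : s < 1 := lt_of_lt_of_le hs.2 h2
    have hm2 : Measurable (fun φ : ℝ => (disc \ S).indicator (1 : ℝ × ℝ → ℝ≥0∞)
        (s * cos φ, s * sin φ)) := by
      have h1 : Measurable ((disc \ S).indicator (1 : ℝ × ℝ → ℝ≥0∞)) :=
        measurable_one.indicator hm
      have h3 : Measurable (fun φ : ℝ => ((s * cos φ, s * sin φ) : ℝ × ℝ)) := by fun_prop
      exact h1.comp h3
    simp only [smul_eq_mul]
    rw [lintegral_const_mul _ hm2, ENNReal.ofReal_mul hs0.le]
    gcongr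
    have e4 : ∫⁻ φ in Ioo (-π) π, (disc \ S).indicator (1 : ℝ × ℝ → ℝ≥0∞)
        (s * cos φ, s * sin φ) = volume (Ioo (-π) π \ arcSet S s) := by
      have : (fun φ : ℝ => (disc \ S).indicator (1 : ℝ × ℝ → ℝ≥0∞) (s * cos φ, s * sin φ)) =
          ({φ : ℝ | (s * cos φ, s * sin φ) ∉ S}).indicator 1 := by
        funext φ
        have hd : (s * cos φ, s * sin φ) ∈ disc := by
          change (s * cos φ) ^ 2 + (s * sin φ) ^ 2 < 1
          have h7 := sin_sq_add_cos_sq φ
          have h8 : (s * cos φ) ^ 2 + (s * sin φ) ^ 2 = s ^ 2 * (sin φ ^ 2 + cos φ ^ 2) := by ring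
          rw [h8, h7]
          nlinarith
        by_cases hφ : (s * cos φ, s * sin φ) ∈ S
        · rw [indicator_of_notMem (by simp [hφ]), indicator_of_notMem (by simp [hφ])]
        · have h9 : (s * cos φ, s * sin φ) ∈ disc \ S := ⟨hd, hφ⟩
          rw [indicator_of_mem h9, indicator_of_mem (by simpa using hφ)]
          rfl
      rw [this]
      have hms : MeasurableSet {φ : ℝ | (s * cos φ, s * sin φ) ∉ S} := by
        have h3 : Measurable (fun φ : ℝ => ((s * cos φ, s * sin φ) : ℝ × ℝ)) := by fun_prop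
        exact (h3 hS).compl
      rw [lintegral_indicator_one hms, Measure.restrict_apply hms]
      congr 1
      ext φ
      simp only [mem_inter_iff, mem_ofPred_eq, mem_sdiff, arcSet, not_and]
      tauto
    rw [e4, measure_sdiff (fun φ hφ => hφ.1) (measurableSet_arcSet hS s).nullMeasurableSet
      (volume_arcSet_ne_top S s), Real.volume_Ioo, ← ofReal_arc,
      ← ENNReal.ofReal_sub _ (arc_nonneg S s)]
    apply ENNReal.ofReal_le_ofReal
    have := h s hs
    linarith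
  calc ENNReal.ofReal (l * (s₂ ^ 2 - s₁ ^ 2) / 2)
      = ∫⁻ s in Ioo s₁ s₂, ENNReal.ofReal (s * l) := by
        rw [← ofReal_integral_eq_lintegral_ofReal]
        · congr 1
          rw [← integral_Ioc_eq_integral_Ioo, ← intervalIntegral.integral_of_le h12,
            intervalIntegral.integral_mul_const, integral_id]
          ring
        · exact ((continuous_id.mul continuous_const).integrableOn_Icc).mono_set Ioo_subset_Icc_self
        · refine (ae_restrict_iff' measurableSet_Ioo).2 (Filter.Eventually.of_forall ?_)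
          intro s hs
          have : 0 < s := lt_of_le_of_lt h0 hs.1
          positivity
    _ ≤ ∫⁻ s in Ioo s₁ s₂, ∫⁻ φ in Ioo (-π) π, ENNReal.ofReal s •
      (disc \ S).indicator (1 : ℝ × ℝ → ℝ≥0∞) (s * cos φ, s * sin φ) :=
        setLIntegral_mono' measurableSet_Ioo e3
    _ ≤ ∫⁻ s in Ioi (0 : ℝ), ∫⁻ φ in Ioo (-π) π, ENNReal.ofReal s •
      (disc \ S).indicator (1 : ℝ × ℝ → ℝ≥0∞) (s * cos φ, s * sin φ) :=
        lintegral_mono_set fun s hs => lt_of_le_of_lt h0 hs.1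

end Pool.Agent.TetraPack
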