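import Pool.Agent.TetraPack.Section

/-!
# The bad parameters of a tetrahedron
-/

namespace Pool.Agent.TetraPack

open MeasureTheory Set Real
open scoped ENNReal RealInnerProductSpace

lemma volume_level {α x c r σ : ℝ} (hσ : 0 < σ) (hx : σ ≤ |x|) (hr : 0 ≤ r) :
    volume {t : ℝ | |α + t * x - c| ≤ r} ≤ ENNReal.ofReal (2 * (r / σ)) := by
  have hx0 : x ≠ 0 := by
    intro h; rw [h, abs_zero] at hx; linarith
  have hsub : {t : ℝ | |α + t * x - c| ≤ r} ⊆ Metric.closedBall ((c - α) / x) (r / σ) := by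
    intro t ht
    rw [Metric.mem_closedBall, Real.dist_eq]
    have h1 : t - (c - α) / x = (α + t * x - c) / x := by field_simp; ring
    rw [h1, abs_div]
    exact div_le_div₀ hr ht hσ hx
  exact (measure_mono hsub).trans_eq (Real.volume_closedBall _ _)

lemma two_steep {x : Fin 4 → ℝ} (hs : ∑ j, x j = 0) (hq : ∑ j, x j ^ 2 = 4 / 3) :
    ∃ j k, j ≠ k ∧ 1 / 3 ≤ |x j| ∧ 1 / 3 ≤ |x k| := by
  by_contra hno
  push Not at hno
  have hlt : ∀ a b c d : Fin 4, x a + x b + x c + x d = 0 →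
      x a ^ 2 + x b ^ 2 + x c ^ 2 + x d ^ 2 = 4 / 3 → |x a| < 1 / 3 → |x b| < 1 / 3 →
      |x c| < 1 / 3 → False := by
    intro a b c d h1 h2 ha hb hc
    have ha' := abs_lt.1 ha
    have hb' := abs_lt.1 hb
    have hc' := abs_lt.1 hc
    have e : x d = -(x a + x b + x c) := by linarith
    rw [e] at h2
    have h3 : (x a + x b + x c) ^ 2 < 1 := by
      rw [sq_lt_one_iff_abs_lt_one, abs_lt]; constructor <;> linarith
    have h4 : ∀ z : ℝ, -(1 / 3) < z → z < 1 / 3 → z ^ 2 < 1 / 9 := by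
      intro z h1 h2; nlinarith
    have a1 := h4 _ ha'.1 ha'.2
    have a2 := h4 _ hb'.1 hb'.2
    have a3 := h4 _ hc'.1 hc'.2
    have e2 : (-(x a + x b + x c)) ^ 2 = (x a + x b + x c) ^ 2 := by ring
    rw [e2] at h2
    linarith
  rw [Fin.sum_univ_four] at hs hq
  by_cases h0 : 1 / 3 ≤ |x 0|
  · exact hlt 1 2 3 0 (by linarith) (by linarith) (hno 0 1 (by decide) h0)
      (hno 0 2 (by decide) h0) (hno 0 3 (by decide) h0)
  · push Not at h0
    by_cases h1 : 1 / 3 ≤ |x 1|
    · exact hlt 0 2 3 1 (by linarith) (by linarith) h0 (hno 1 2 (by decide) h1)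
        (hno 1 3 (by decide) h1)
    · push Not at h1
      by_cases h2 : 1 / 3 ≤ |x 2|
      · exact hlt 0 1 3 2 (by linarith) (by linarith) h0 h1 (hno 2 3 (by decide) h2)
      · push Not at h2
        exact hlt 0 1 2 3 (by linarith) (by linarith) h0 h1 h2

theorem bad_measure {K : Set E3} {v n : Fin 4 → E3} {c : Fin 4 → ℝ} (T : Tet K v n c)
    (p : E3) {u : E3} (hu : ‖u‖ = 1) {r : ℝ} (hr : 0 ≤ r) :
    ∃ B : Set ℝ, MeasurableSet B ∧ volume B ≤ ENNReal.ofReal (32 * r) ∧ ∀ t, t ∉ B → ∀ j k, j ≠ k →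
      |⟪n j, p + t • u⟫ - c j| ≤ r → |⟪n k, p + t • u⟫ - c k| ≤ r →
      |⟪n j, u⟫| ≤ 1 / 10 ∧ |⟪n k, u⟫| ≤ 1 / 10 := by
  set A : Fin 4 → Set ℝ := fun j => {t | |⟪n j, p + t • u⟫ - c j| ≤ r} with hA
  have hAe : ∀ j, A j = {t : ℝ | |⟪n j, p⟫ + t * ⟪n j, u⟫ - c j| ≤ r} := by
    intro j; simp only [hA, inner_add_right, real_inner_smul_right]
  have hAm : ∀ j, MeasurableSet (A j) := by
    intro j
    rw [hAe]
    exact (isClosed_le (by fun_prop) continuous_const).measurableSet
  have hAv : ∀ j σ, 0 < σ → σ ≤ |(⟪n j, u⟫ : ℝ)| → volume (A j) ≤ ENNReal.ofReal (2 * (r / σ)) := by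
    intro j σ h1 h2
    rw [hAe]; exact volume_level h1 h2 hr
  obtain ⟨j1, j2, hne, h1, h2⟩ := two_steep (T.sumx u) (by rw [T.frame, hu]; norm_num)
  obtain ⟨j3, j4, hall⟩ : ∃ j3 j4 : Fin 4, ∀ l, l = j1 ∨ l = j2 ∨ l = j3 ∨ l = j4 := by
    have : ∀ j1 j2 : Fin 4, j1 ≠ j2 → ∃ j3 j4 : Fin 4, ∀ l, l = j1 ∨ l = j2 ∨ l = j3 ∨ l = j4 := by
      decide
    exact this j1 j2 hne
  have hv1 : volume (A j1) ≤ ENNReal.ofReal (6 * r) := by
    refine (hAv j1 (1 / 3) (by norm_num) h1).trans (ENNReal.ofReal_le_ofReal ?_)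
    linarith
  have hv2 : volume (A j2) ≤ ENNReal.ofReal (6 * r) := by
    refine (hAv j2 (1 / 3) (by norm_num) h2).trans (ENNReal.ofReal_le_ofReal ?_)
    linarith
  by_cases hsm : ∃ m, (m = j3 ∨ m = j4) ∧ 1 / 10 < |(⟪n m, u⟫ : ℝ)|
  · -- one of the remaining slopes is large: take the set of the steeper one
    obtain ⟨m, hm, hmx⟩ := hsm
    have hmv := hAv m (1 / 10) (by norm_num) hmx.le
    -- the set where both `j3` and `j4` are active is contained in `A m`
    refine ⟨A j1 ∪ A j2 ∪ A m, ((hAm _).union (hAm _)).union (hAm _), ?_, ?_⟩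
    · calc volume (A j1 ∪ A j2 ∪ A m) ≤ volume (A j1) + volume (A j2) + volume (A m) :=
            (measure_union_le _ _).trans (add_le_add_left (measure_union_le _ _) _)
        _ ≤ ENNReal.ofReal (6 * r) + ENNReal.ofReal (6 * r) + ENNReal.ofReal (2 * (r / (1 / 10))) :=
            add_le_add (add_le_add hv1 hv2) hmv
        _ = ENNReal.ofReal (32 * r) := by
            rw [← ENNReal.ofReal_add (by positivity) (by positivity),
              ← ENNReal.ofReal_add (by positivity) (by positivity)]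
            congr 1; ring
    · intro t ht j k hjk hj hk
      simp only [mem_union, not_or] at ht
      obtain ⟨⟨ht1, ht2⟩, htm⟩ := ht
      exfalso
      have hjA : t ∈ A j := hj
      have hkA : t ∈ A k := hk
      rcases hall j with rfl | rfl | rfl | rfl
      · exact ht1 hjA
      · exact ht2 hjA
      · rcases hall k with rfl | rfl | rfl | rfl
        · exact ht1 hkA
        · exact ht2 hkA
        · exact hjk rfl
        · rcases hm with rfl | rfl
          · exact htm hjA
          · exact htm hkA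
      · rcases hall k with rfl | rfl | rfl | rfl
        · exact ht1 hkA
        · exact ht2 hkA
        · rcases hm with rfl | rfl
          · exact htm hkA
          · exact htm hjA
        · exact hjk rfl
  · push Not at hsm
    refine ⟨A j1 ∪ A j2, (hAm _).union (hAm _), ?_, ?_⟩
    · calc volume (A j1 ∪ A j2) ≤ volume (A j1) + volume (A j2) := measure_union_le _ _
        _ ≤ ENNReal.ofReal (6 * r) + ENNReal.ofReal (6 * r) := add_le_add hv1 hv2
        _ = ENNReal.ofReal (12 * r) := by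
            rw [← ENNReal.ofReal_add (by positivity) (by positivity)]
            congr 1; ring
        _ ≤ _ := ENNReal.ofReal_le_ofReal (by linarith)
    · intro t ht j k hjk hj hk
      simp only [mem_union, not_or] at ht
      obtain ⟨ht1, ht2⟩ := ht
      have key : ∀ l, t ∈ A l → |(⟪n l, u⟫ : ℝ)| ≤ 1 / 10 := by
        intro l hl
        rcases hall l with rfl | rfl | rfl | rfl
        · exact absurd hl ht1
        · exact absurd hl ht2
        · exact hsm _ (Or.inl rfl)
        · exact hsm _ (Or.inr rfl)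
      exact ⟨key j hj, key k hk⟩

end Pool.Agent.TetraPack
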