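import Pool.Agent.TetraPack.Piece

/-!
# The chain of scales
-/

namespace Pool.Agent.TetraPack

open MeasureTheory Set Real Finset
open scoped ENNReal

/-- `g = 2π - arccos (1/3)`. -/
noncomputable def gg : ℝ := 2 * π - arccos (1 / 3)

lemma gg_bounds : 5.052 ≤ gg ∧ gg ≤ 5.0524 := by
  have hpi1 := Real.pi_gt_d6
  have hpi2 := Real.pi_lt_d6
  have h1 : arcsin (1 / 3) ≤ 0.34 :=
    arcsin_le_of (by norm_num) (by norm_num) (by norm_num)
  have h2 : 0.3398 ≤ arcsin (1 / 3) := by
    have hs := (abs_le.1 (sin_bound (x := 0.3398) (by rw [abs_of_pos] <;> norm_num))).2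
    rw [abs_of_pos (by norm_num : (0 : ℝ) < 0.3398)] at hs
    have h3 : sin 0.3398 ≤ 1 / 3 := by norm_num at hs ⊢; linarith
    have h4 := monotone_arcsin h3
    rwa [arcsin_sin (by norm_num at hpi1 hpi2 ⊢; linarith) (by norm_num at hpi1 hpi2 ⊢; linarith)] at h4
  unfold gg
  rw [arccos]
  norm_num at hpi1 hpi2 h1 h2 ⊢
  constructor <;> linarith

section key

variable {ι : Type*} {A : ι → ℝ → ℝ} {P q α : ι → ℝ}

lemma key_step (T : Finset ι) (h : ∀ i ∈ T, Pc (A i) (P i) (q i) (α i)) {s x y ρ : ℝ} (hs : 0 < s)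
    (hs1 : s < 1) (hρ : ρ ≤ x * s) (hx0 : 0 < x) (hx : x ≤ 0.152) (hy : arcsin (2 * x) ≤ y)
    (hy1 : y ≤ 0.307) (hm : ∀ i ∈ T, Meets (A i) ρ)
    (hsum : ∑ i ∈ T, A i (s / 2) ≤ gg) {l : ℝ} (hcard : 2 ≤ T.card)
    (hl1 : (T.card : ℝ) * (0.6225 + (y - 2 * x)) + gg / 2 ≤ gg - l)
    (hl2 : T.card = 2 → π / 2 + gg / 2 + 0.6225 + 2 * (y - 2 * x) ≤ gg - l)
    (hexc : 2 < T.card → gg < (π - 2 * y) + ((T.card : ℝ) - 1) * (1.21 - 1.245 * (2 * x))) :
    ∑ i ∈ T, A i s ≤ gg - l := by
  classical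
  have hpi1 := Real.pi_gt_d4
  have hpi2 := Real.pi_lt_d4
  have hg := gg_bounds
  norm_num at hpi1 hpi2 hx hy1 hg
  have hs2 : 0 < s / 2 := by linarith
  have hs21 : s / 2 < 1 := by linarith
  have h6 : 0 ≤ y - 2 * x := by
    have := le_arcsin (v := 2 * x) (by linarith) (by linarith)
    linarith
  -- lower bounds at `s / 2`
  have hρ2 : ρ / (s / 2) ≤ 2 * x := by rw [div_le_iff₀ hs2]; linarith
  have hlow : ∀ i ∈ T, 1.21 - 1.245 * (2 * x) ≤ A i (s / 2) := by
    intro i hi
    have := (h i hi).lower (hm i hi) hs2 hs21 (by linarith)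
    norm_num at this ⊢
    linarith
  have hsat : ∀ i ∈ T, s / 2 < q i → A i (s / 2) = π - 2 * arcsin (P i / (s / 2)) ∧
      arcsin (P i / (s / 2)) ≤ y := by
    intro i hi hq
    refine ⟨(h i hi).sat _ hs2 hs21 hq, ?_⟩
    refine (monotone_arcsin ?_).trans hy
    have := (h i hi).P_lt (hm i hi)
    calc P i / (s / 2) ≤ ρ / (s / 2) := by gcongr
      _ ≤ 2 * x := hρ2
  have hstar : ∀ i ∈ T, ¬ s / 2 < q i → A i s ≤ α i / 2 + A i (s / 2) / 2 + (y - 2 * x) := by
    intro i hi hq
    exact (h i hi).star (hm i hi) hs hs1 hρ hx0 (by norm_num; exact hx) hy (by norm_num; linarith)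
      (not_lt.1 hq)
  by_cases hS : ∃ i ∈ T, s / 2 < q i
  · obtain ⟨i, hi, hqi⟩ := hS
    obtain ⟨hAi, hPi⟩ := hsat i hi hqi
    have hsplit := Finset.add_sum_erase T (fun j => A j (s / 2)) hi
    -- no second saturated piece
    have hno : ∀ j ∈ T.erase i, ¬ s / 2 < q j := by
      intro j hj hqj
      obtain ⟨hji, hjT⟩ := Finset.mem_erase.1 hj
      obtain ⟨hAj, hPj⟩ := hsat j hjT hqj
      have h1 : A j (s / 2) ≤ ∑ k ∈ T.erase i, A k (s / 2) :=
        Finset.single_le_sum (f := fun k => A k (s / 2))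
          (fun k hk => (h k (Finset.mem_of_mem_erase hk)).nn _) hj
      linarith
    have hcardle : T.card = 2 := by
      by_contra hne
      have h2 : 2 < T.card := by omega
      have h3 := hexc h2
      have h4 : ((T.card : ℝ) - 1) * (1.21 - 1.245 * (2 * x)) ≤ ∑ k ∈ T.erase i, A k (s / 2) := by
        have := Finset.card_nsmul_le_sum (T.erase i) (fun k => A k (s / 2))
          (1.21 - 1.245 * (2 * x)) (fun k hk => hlow k (Finset.mem_of_mem_erase hk))
        rw [Finset.card_erase_of_mem hi, nsmul_eq_mul, Nat.cast_sub (by omega)] at this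
        simpa using this
      linarith
    have hc1 : (T.erase i).card = 1 := by rw [Finset.card_erase_of_mem hi, hcardle]
    obtain ⟨j, hj⟩ := Finset.card_eq_one.1 hc1
    have hjmem : j ∈ T.erase i := by rw [hj]; exact Finset.mem_singleton_self j
    have hjT := Finset.mem_of_mem_erase hjmem
    have hst := hstar j hjT (hno j hjmem)
    have hsplit2 := Finset.add_sum_erase T (fun j => A j s) hi
    rw [hj, Finset.sum_singleton] at hsplit hsplit2
    have hup := (h i hi).up1 s hs hs1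
    have hα := (h j hjT).α2
    norm_num at hα
    -- `P(s/2) - 2 P(s) ≤ 2 c`
    have hP0 := (h i hi).P_nonneg
    have hPρ := (h i hi).P_lt (hm i hi)
    have hPs : P i / s ≤ x := by
      rw [div_le_iff₀ hs]; linarith
    have hPs0 : 0 ≤ P i / s := by positivity
    have e1 : P i / s ≤ arcsin (P i / s) := le_arcsin hPs0 (by linarith)
    have e2 : arcsin (P i / (s / 2)) ≤ 2 * (P i / s) + (y - 2 * x) := by
      have h1 : arcsin (2 * (P i / s)) ≤ (P i / s) / x * arcsin (2 * x) := by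
        have := arcsin_mul_le (v := 2 * x) (t := (P i / s) / x) (by linarith) (by linarith)
          (by positivity) (by rw [div_le_one hx0]; exact hPs)
        have e : (P i / s) / x * (2 * x) = 2 * (P i / s) := by field_simp
        rwa [e] at this
      have e3 : 2 * (P i / s) = P i / (s / 2) := by field_simp
      rw [← e3]
      have h3 : (P i / s) / x * arcsin (2 * x) ≤ (P i / s) / x * y := by gcongr
      have h4 : (P i / s) / x * y = (P i / s) / x * (y - 2 * x) + 2 * (P i / s) := by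
        field_simp; ring
      have h5 : (P i / s) / x ≤ 1 := by rw [div_le_one hx0]; exact hPs
      nlinarith
    have hl2' := hl2 hcardle
    norm_num at hl2' 
    linarith
  · push Not at hS
    calc ∑ i ∈ T, A i s ≤ ∑ i ∈ T, ((0.6225 + (y - 2 * x)) + A i (s / 2) / 2) := by
          refine Finset.sum_le_sum fun i hi => ?_
          have h1 := hstar i hi (not_lt.2 (hS i hi))
          have h2 := (h i hi).α2
          norm_num at h2 ⊢
          linarith
      _ = (T.card : ℝ) * (0.6225 + (y - 2 * x)) + (∑ i ∈ T, A i (s / 2)) / 2 := by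
          rw [Finset.sum_add_distrib, Finset.sum_const, nsmul_eq_mul, Finset.sum_div]
      _ ≤ _ := by linarith

open Classical in
theorem chain (F : Finset ι) (h : ∀ i ∈ F, Pc (A i) (P i) (q i) (α i))
    (hsum : ∀ s, 0 < s → s < 1 → ∑ i ∈ F, A i s ≤ gg) :
    ∃ s₁ s₂ l : ℝ, 0 ≤ s₁ ∧ s₁ ≤ s₂ ∧ s₂ ≤ 1 ∧ 0 ≤ l ∧ 3.2 / 10 ^ 8 ≤ l * (s₂ ^ 2 - s₁ ^ 2) / 2 ∧
      ∀ s ∈ Set.Ioo s₁ s₂, ∑ i ∈ F, A i s ≤ gg - l := by
  have hpi1 := Real.pi_gt_d4
  have hpi2 := Real.pi_lt_d4
  have hg := gg_bounds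
  norm_num at hpi1 hpi2 hg
  set N : ℝ → Finset ι := fun ρ => F.filter (fun i => Meets (A i) ρ) with hN
  have hNF : ∀ ρ, N ρ ⊆ F := fun ρ => Finset.filter_subset _ _
  have hmono : ∀ ρ ρ', ρ ≤ ρ' → N ρ ⊆ N ρ' := by
    intro ρ ρ' hle i hi
    rw [hN, Finset.mem_filter] at hi ⊢
    exact ⟨hi.1, hi.2.mono hle⟩
  have hsumN : ∀ ρ s, 0 < s → s < ρ → s < 1 → ∑ i ∈ F, A i s = ∑ i ∈ N ρ, A i s := by
    intro ρ s hs0 hsρ hs1
    symm
    refine Finset.sum_subset (hNF ρ) fun i hi hni => ?_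
    have : ¬ Meets (A i) ρ := fun hm => hni (by rw [hN, Finset.mem_filter]; exact ⟨hi, hm⟩)
    have h1 : ¬ 0 < A i s := fun hpos => this ⟨s, hs0, hsρ, hs1, hpos⟩
    exact le_antisymm (not_lt.1 h1) ((h i hi).nn s)
  have hle : ∀ ρ s, 0 < s → s < 1 → ∑ i ∈ N ρ, A i s ≤ gg := by
    intro ρ s hs0 hs1
    refine le_trans ?_ (hsum s hs0 hs1)
    exact Finset.sum_le_sum_of_subset_of_nonneg (hNF ρ) fun i hi _ => (h i hi).nn s
  -- at most four pieces meet the disc of radius 0.16
  have h4 : (N 0.16).card ≤ 4 := by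
    by_contra hcon
    push Not at hcon
    have h1 := hle 0.16 0.9995 (by norm_num) (by norm_num)
    have h2 := Finset.card_nsmul_le_sum (N 0.16) (fun k => A k 0.9995)
      (1.21 - 1.245 * (0.16 / 0.9995)) (fun k hk => by
        have hk' := hk
        rw [hN, Finset.mem_filter] at hk'
        exact (h k hk'.1).lower hk'.2 (by norm_num) (by norm_num) (by norm_num))
    rw [nsmul_eq_mul] at h2
    have h3 : (5 : ℝ) ≤ ((N 0.16).card : ℝ) := by exact_mod_cast hcon
    have h5 : (5 : ℝ) * (1.21 - 1.245 * (0.16 / 0.9995)) ≤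
        ((N 0.16).card : ℝ) * (1.21 - 1.245 * (0.16 / 0.9995)) := by
      gcongr
    norm_num at h5 h2 h1
    linarith
  -- general step
  have hstep : ∀ (n : ℕ) (ρ R x y l w : ℝ), (N R).card ≤ n → (N ρ).card = n → ρ ≤ R → R < 1 →
      0 < w → w < R → ρ ≤ x * w → 0 < x → x ≤ 0.152 → 2 * x ≤ y - y ^ 3 / 6 → 0 < y → y ≤ 0.307 →
      2 ≤ n → (n : ℝ) * (0.6225 + (y - 2 * x)) + gg / 2 ≤ gg - l →
      (n = 2 → π / 2 + gg / 2 + 0.6225 + 2 * (y - 2 * x) ≤ gg - l) →
      (2 < n → gg < (π - 2 * y) + ((n : ℝ) - 1) * (1.21 - 1.245 * (2 * x))) →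
      ∀ s ∈ Set.Ioo w R, ∑ i ∈ F, A i s ≤ gg - l := by
    intro n ρ R x y l w hR hρn hρR hR1 hw hwR hρx hx0 hx hy hy0 hy1 hn hl1 hl2 hexc s hs
    have heq : N ρ = N R := Finset.eq_of_subset_of_card_le (hmono _ _ hρR) (by omega)
    have hs0 : 0 < s := hw.trans hs.1
    have hs1 : s < 1 := hs.2.trans hR1
    rw [hsumN R s hs0 hs.2 hs1, ← heq]
    refine key_step (N ρ) (fun i hi => h i (hNF _ hi)) hs0 hs1 (ρ := ρ) (x := x) (y := y) ?_ hx0 hx
      (arcsin_le_of hy0 (by linarith) hy) hy1 ?_ (hle _ _ (by linarith) (by linarith))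
      (by omega) (by rw [hρn]; exact hl1) (by rw [hρn]; exact hl2) (by rw [hρn]; exact hexc)
    · have : x * w ≤ x * s := by gcongr; exact hs.1.le
      linarith
    · intro i hi
      rw [hN, Finset.mem_filter] at hi
      exact hi.2
  by_cases c4 : (N 0.0236).card = 4
  · refine ⟨0.1584, 0.16, 0.017, by norm_num, by norm_num, by norm_num, by norm_num, by norm_num, ?_⟩
    refine hstep 4 0.0236 0.16 0.149 0.3027 0.017 0.1584 h4 c4 (by norm_num) (by norm_num)
      (by norm_num) (by norm_num) (by norm_num) (by norm_num) (by norm_num) (by norm_num)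
      (by norm_num) (by norm_num) (by norm_num) ?_ (by norm_num) ?_
    · norm_num; linarith
    · intro _; norm_num; linarith
  have h3 : (N 0.0236).card ≤ 3 := by
    have := Finset.card_le_card (hmono 0.0236 0.16 (by norm_num))
    omega
  by_cases c3 : (N 0.00132).card = 3
  · refine ⟨0.023364, 0.0236, 0.64, by norm_num, by norm_num, by norm_num, by norm_num,
      by norm_num, ?_⟩
    refine hstep 3 0.00132 0.0236 0.0565 0.11325 0.64 0.023364 h3 c3 (by norm_num) (by norm_num)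
      (by norm_num) (by norm_num) (by norm_num) (by norm_num) (by norm_num) (by norm_num)
      (by norm_num) (by norm_num) (by norm_num) ?_ (by norm_num) ?_
    · norm_num; linarith
    · intro _; norm_num; linarith
  have h2 : (N 0.00132).card ≤ 2 := by
    have := Finset.card_le_card (hmono 0.00132 0.0236 (by norm_num))
    omega
  by_cases c2 : (N 0.000185).card = 2
  · refine ⟨0.0012276, 0.00132, 0.32, by norm_num, by norm_num, by norm_num, by norm_num,
      by norm_num, ?_⟩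
    refine hstep 2 0.000185 0.00132 0.151 0.30685 0.32 0.0012276 h2 c2 (by norm_num) (by norm_num)
      (by norm_num) (by norm_num) (by norm_num) (by norm_num) (by norm_num) (by norm_num)
      (by norm_num) (by norm_num) (by norm_num) ?_ ?_ (by norm_num)
    · norm_num; linarith
    · intro _; norm_num; linarith
  have h1 : (N 0.000185).card ≤ 1 := by
    have := Finset.card_le_card (hmono 0.000185 0.00132 (by norm_num))
    omega
  refine ⟨0, 0.000185, 1.91, le_rfl, by norm_num, by norm_num, by norm_num, by norm_num, ?_⟩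
  intro s hs
  have hs1 : s < 1 := hs.2.trans (by norm_num)
  rw [hsumN 0.000185 s hs.1 hs.2 hs1]
  have h5 := Finset.sum_le_card_nsmul (N 0.000185) (fun k => A k s) π (fun k hk => by
    have h6 := (h k (hNF _ hk)).up1 s hs.1 hs1
    have h7 := (h k (hNF _ hk)).P_nonneg
    have h8 : 0 ≤ arcsin (P k / s) := arcsin_nonneg.2 (div_nonneg h7 hs.1.le)
    linarith)
  rw [nsmul_eq_mul] at h5
  have h6 : ((N 0.000185).card : ℝ) ≤ 1 := by exact_mod_cast h1
  have h7 : ((N 0.000185).card : ℝ) * π ≤ 1 * π := by gcongr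
  norm_num
  linarith

end key

end Pool.Agent.TetraPack
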