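import Pool.Agent.TetraPack.Vol

/-!
# Packings: counting members
-/

namespace Pool.Agent.TetraPack

open MeasureTheory Set Real
open scoped ENNReal RealInnerProductSpace

/-- A packing by regular tetrahedra of edge length one. -/
structure Pack {ι : Type*} (K : ι → Set E3) : Prop where
  tet : ∀ i, IsRegTet (K i)
  disj : ∀ i j, i ≠ j → Disjoint (interior (K i)) (interior (K j))

section

variable {K : Set E3}

lemma IsRegTet.dist_le (h : IsRegTet K) {x y : E3} (hx : x ∈ K) (hy : y ∈ K) : dist x y ≤ 1 := by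
  obtain ⟨v, hv, rfl⟩ := h
  obtain ⟨_, ⟨i, rfl⟩, _, ⟨j, rfl⟩, hle⟩ := convexHull_exists_dist_ge2 hx hy
  refine hle.trans ?_
  by_cases hij : i = j
  · rw [hij, dist_self]; exact zero_le_one
  · exact (hv i j hij).le

lemma IsRegTet.convex (h : IsRegTet K) : Convex ℝ K := by
  obtain ⟨v, hv, rfl⟩ := h
  exact convex_convexHull ℝ _

lemma IsRegTet.isCompact (h : IsRegTet K) : IsCompact K := by
  obtain ⟨v, hv, rfl⟩ := h
  exact (Set.finite_range v).isCompact_convexHull (𝕜 := ℝ)

lemma IsRegTet.nonempty (h : IsRegTet K) : K.Nonempty := by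
  obtain ⟨v, hv, rfl⟩ := h
  exact ⟨v 0, subset_convexHull ℝ _ ⟨0, rfl⟩⟩

lemma IsRegTet.interior_ae (h : IsRegTet K) : interior K =ᵐ[volume] K := by
  refine (interior_subset (s := K)).eventuallyLE.antisymm ?_
  rw [ae_le_set]
  refine measure_mono_null ?_ (h.convex.addHaar_frontier volume)
  rintro x ⟨hx, hx'⟩
  exact ⟨subset_closure hx, hx'⟩

lemma IsRegTet.volume_interior (h : IsRegTet K) : volume (interior K) = volume K :=
  measure_congr h.interior_ae

lemma IsRegTet.le_volume (h : IsRegTet K) : ENNReal.ofReal 0.1178 ≤ volume K := by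
  obtain ⟨v, n, c, T⟩ := exists_tet h
  exact volume_tet T

end

section

variable {ι : Type*} {K : ι → Set E3}

lemma Pack.sum_le (P : Pack K) (F : Finset ι) {S : Set E3} (hF : ∀ i ∈ F, interior (K i) ⊆ S) :
    ∑ i ∈ F, volume (K i) ≤ volume S := by
  calc ∑ i ∈ F, volume (K i) = ∑ i ∈ F, volume (interior (K i)) :=
        Finset.sum_congr rfl fun i _ => (P.tet i).volume_interior.symm
    _ = volume (⋃ i ∈ F, interior (K i)) := by
        refine (measure_biUnion_finset ?_ fun i _ => isOpen_interior.measurableSet).symm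
        intro i _ j _ hij
        exact P.disj i j hij
    _ ≤ volume S := measure_mono (Set.iUnion₂_subset hF)

lemma Pack.card_le (P : Pack K) (F : Finset ι) {x : E3} {ρ : ℝ} (hρ : 0 ≤ ρ)
    (hF : ∀ i ∈ F, K i ⊆ Metric.closedBall x ρ) : (F.card : ℝ) * 0.1178 ≤ ρ ^ 3 * (π * 4 / 3) := by
  have h1 := P.sum_le F (S := Metric.closedBall x ρ) fun i hi => interior_subset.trans (hF i hi)
  have h2 : (F.card : ℝ≥0∞) * ENNReal.ofReal 0.1178 ≤ ∑ i ∈ F, volume (K i) := by
    rw [← nsmul_eq_mul]
    exact Finset.card_nsmul_le_sum F _ _ fun i _ => (P.tet i).le_volume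
  have h3 := h2.trans h1
  rw [EuclideanSpace.volume_closedBall_fin_three, ← ENNReal.ofReal_natCast,
    ← ENNReal.ofReal_mul (by positivity), ← ENNReal.ofReal_pow hρ,
    ← ENNReal.ofReal_mul (by positivity), ENNReal.ofReal_le_ofReal_iff (by positivity)] at h3
  exact h3

lemma Pack.finite (P : Pack K) (x : E3) (ρ : ℝ) : {i | K i ⊆ Metric.closedBall x ρ}.Finite := by
  by_contra hinf
  have hinf : {i | K i ⊆ Metric.closedBall x ρ}.Infinite := hinf
  obtain ⟨N, hN⟩ := exists_nat_gt ((|ρ| ^ 3 * (π * 4 / 3)) / 0.1178)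
  obtain ⟨F, hF, hcard⟩ := hinf.exists_subset_card_eq N
  have h1 := P.card_le F (x := x) (ρ := |ρ|) (abs_nonneg ρ) fun i hi =>
    (hF hi : K i ⊆ Metric.closedBall x ρ).trans (Metric.closedBall_subset_closedBall (le_abs_self ρ))
  rw [hcard] at h1
  rw [div_lt_iff₀ (by norm_num)] at hN
  linarith

/-- the uncovered set (up to boundaries) -/
def unc (K : ι → Set E3) : Set E3 := (⋃ i, interior (K i))ᶜ

lemma measurableSet_unc (K : ι → Set E3) : MeasurableSet (unc K) :=
  (isOpen_iUnion fun _ => isOpen_interior).measurableSet.compl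

end

end Pool.Agent.TetraPack
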