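import Pool.Agent.TetraPack.Section

/-!
# The section of a packing through a point of an edge
-/

namespace Pool.Agent.TetraPack

open MeasureTheory Set Real
open scoped ENNReal RealInnerProductSpace

section

variable {K : Set E3} {v n : Fin 4 → E3} {c : Fin 4 → ℝ} {u f g : E3}

lemma h_bounds : 102 / 125 ≤ √(2 / 3 : ℝ) ∧ √(2 / 3 : ℝ) ≤ 817 / 1000 := by
  constructor
  · apply Real.le_sqrt_of_sq_le; norm_num
  · rw [Real.sqrt_le_left (by norm_num)]; norm_num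

/-- the point of the edge `a b` with parameter `t` -/
def ept (v : Fin 4 → E3) (a b : Fin 4) (t : ℝ) : E3 := v a + t • (v b - v a)

lemma Tet.face_edge (T : Tet K v n c) {a b j : Fin 4} (ha : j ≠ a) (hb : j ≠ b) (t : ℝ) :
    ⟪n j, ept v a b t⟫ = c j := by
  unfold ept
  rw [inner_add_right, real_inner_smul_right, inner_sub_right, T.off j a ha, T.off j b hb]
  ring

lemma Tet.face_edge_a (T : Tet K v n c) {a b : Fin 4} (hab : a ≠ b) (t : ℝ) :
    ⟪n a, ept v a b t⟫ = c a - (1 - t) * √(2 / 3) := by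
  unfold ept
  rw [inner_add_right, real_inner_smul_right, inner_sub_right, T.opp a, T.off a b hab]
  ring

lemma Tet.face_edge_b (T : Tet K v n c) {a b : Fin 4} (hab : a ≠ b) (t : ℝ) :
    ⟪n b, ept v a b t⟫ = c b - t * √(2 / 3) := by
  unfold ept
  rw [inner_add_right, real_inner_smul_right, inner_sub_right, T.opp b, T.off b a hab.symm]
  ring

lemma Tet.slope_zero (T : Tet K v n c) {a b j : Fin 4} (ha : j ≠ a) (hb : j ≠ b) :
    ⟪n j, v b - v a⟫ = (0 : ℝ) := by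
  rw [inner_sub_right, T.off j a ha, T.off j b hb, sub_self]

lemma Tet.subset_closure_interior (T : Tet K v n c) : K ⊆ closure (interior K) := by
  have hconv : Convex ℝ K := by rw [T.hK]; exact convex_convexHull ℝ _
  have hne : (interior K).Nonempty := by
    refine ⟨cen v, ?_⟩
    rw [T.int]
    intro j
    have hh := h_bounds.1
    have h1 : ∑ k, ⟪n j, v k⟫ = 4 * c j - √(2 / 3) := by
      rw [Finset.sum_eq_add_sum_sdiff_singleton_of_mem (Finset.mem_univ j), T.opp]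
      have h2 : ∑ k ∈ Finset.univ \ {j}, ⟪n j, v k⟫ = ∑ k ∈ Finset.univ \ {j}, c j := by
        refine Finset.sum_congr rfl fun k hk => ?_
        simp only [Finset.mem_sdiff, Finset.mem_univ, Finset.mem_singleton, true_and] at hk
        exact T.off j k (Ne.symm hk)
      rw [h2, Finset.sum_const]
      have h3 : (Finset.univ \ {j} : Finset (Fin 4)).card = 3 := by
        rw [Finset.card_sdiff]; simp
      rw [h3]
      simp only [nsmul_eq_mul]
      push_cast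
      ring
    have h4 : ⟪n j, cen v⟫ = 1 / 4 * ∑ k, ⟪n j, v k⟫ := by
      unfold cen
      rw [real_inner_smul_right, inner_sum]
    rw [h4, h1]
    linarith
  have := hconv.closure_interior_eq_closure_of_nonempty_interior hne
  rw [this]
  exact subset_closure

/-- The interior of a tetrahedron which is disjoint from `interior K` does not meet `K`. -/
lemma Tet.notMem_of_disjoint (T : Tet K v n c) {L : Set E3} (hd : Disjoint (interior L) (interior K))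
    {x : E3} (hx : x ∈ K) : x ∉ interior L := by
  intro hxL
  have h1 := T.subset_closure_interior hx
  rw [_root_.mem_closure_iff] at h1
  obtain ⟨y, hy1, hy2⟩ := h1 (interior L) isOpen_interior hxL
  exact Set.disjoint_left.1 hd hy1 hy2

lemma Tet.ept_mem (T : Tet K v n c) {a b : Fin 4} (hab : a ≠ b) {t : ℝ} (ht : t ∈ Icc (0 : ℝ) 1) :
    ept v a b t ∈ K := by
  have hh : 0 ≤ √(2 / 3 : ℝ) := Real.sqrt_nonneg _
  rw [T.half]
  intro j
  by_cases ha : j = a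
  · rw [ha, T.face_edge_a hab]; nlinarith [ht.2]
  by_cases hb : j = b
  · rw [hb, T.face_edge_b hab]; nlinarith [ht.1]
  rw [T.face_edge ha hb]

/-- the section of `K` itself -/
lemma Tet.edge_section (T : Tet K v n c) {a b : Fin 4} (hab : a ≠ b) (hF : Fr (v b - v a) f g)
    {t r : ℝ} (ht : t ∈ Icc (1 / 8 : ℝ) (7 / 8)) (hr : 0 < r) (hr1 : r ≤ 1 / 100) :
    ∃ a' b' : ℝ × ℝ, a'.1 ^ 2 + a'.2 ^ 2 = 1 ∧ b'.1 ^ 2 + b'.2 ^ 2 = 1 ∧
      a'.1 * b'.1 + a'.2 * b'.2 = -(1 / 3) ∧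
      ∀ y ∈ disc, (ept v a b t + r • (y.1 • f + y.2 • g) ∈ interior K ↔ y ∈ hp a' 0 ∩ hp b' 0) := by
  obtain ⟨j, k, hja, hjb, hka, hkb, hjk, hall⟩ : ∃ j k : Fin 4, j ≠ a ∧ j ≠ b ∧ k ≠ a ∧ k ≠ b ∧
      j ≠ k ∧ ∀ l, l = a ∨ l = b ∨ l = j ∨ l = k := by
    clear hF T
    revert a b
    decide
  have hj0 := T.slope_zero hja hjb
  have hk0 := T.slope_zero hka hkb
  have hnj : ⟪n j, f⟫ ^ 2 + ⟪n j, g⟫ ^ 2 = (1 : ℝ) := by
    have h1 := hF.par (n j) (n j)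
    rw [real_inner_self_eq_norm_sq, T.nn, hj0] at h1
    linarith
  have hnk : ⟪n k, f⟫ ^ 2 + ⟪n k, g⟫ ^ 2 = (1 : ℝ) := by
    have h1 := hF.par (n k) (n k)
    rw [real_inner_self_eq_norm_sq, T.nn, hk0] at h1
    linarith
  have hnjk : ⟪n j, f⟫ * ⟪n k, f⟫ + ⟪n j, g⟫ * ⟪n k, g⟫ = (-(1 / 3) : ℝ) := by
    have h1 := hF.par (n j) (n k)
    rw [T.nk j k hjk, hk0] at h1
    linarith
  refine ⟨(⟪n j, f⟫, ⟪n j, g⟫), (⟪n k, f⟫, ⟪n k, g⟫), hnj, hnk, hnjk, ?_⟩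
  intro y hy
  rw [T.mem_iff]
  change _ ↔ (⟪n j, f⟫ * y.1 + ⟪n j, g⟫ * y.2 < 0 ∧ ⟪n k, f⟫ * y.1 + ⟪n k, g⟫ * y.2 < 0)
  change y.1 ^ 2 + y.2 ^ 2 < 1 at hy
  have hbd : ∀ l, ⟪n l, f⟫ * y.1 + ⟪n l, g⟫ * y.2 < (1 : ℝ) := by
    intro l
    have h1 := hF.par (n l) (n l)
    rw [real_inner_self_eq_norm_sq, T.nn] at h1
    have h0 : (⟪n l, f⟫ * y.1 + ⟪n l, g⟫ * y.2) ^ 2 < (1 : ℝ) := by
      have h2 : (⟪n l, f⟫ * y.1 + ⟪n l, g⟫ * y.2) ^ 2 ≤
          (⟪n l, f⟫ ^ 2 + ⟪n l, g⟫ ^ 2) * (y.1 ^ 2 + y.2 ^ 2) := by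
        nlinarith [sq_nonneg (⟪n l, f⟫ * y.2 - ⟪n l, g⟫ * y.1)]
      have h3 : (⟪n l, f⟫ ^ 2 + ⟪n l, g⟫ ^ 2) * (y.1 ^ 2 + y.2 ^ 2) ≤ 1 * (y.1 ^ 2 + y.2 ^ 2) := by
        apply mul_le_mul_of_nonneg_right _ (by positivity)
        nlinarith [mul_self_nonneg (⟪n l, v b - v a⟫ : ℝ)]
      linarith
    exact (abs_lt.1 ((sq_lt_one_iff_abs_lt_one _).1 h0)).2
  have hh := h_bounds.1
  constructor
  · intro h
    have h1 := h j
    have h2 := h k
    rw [T.face_edge hja hjb] at h1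
    rw [T.face_edge hka hkb] at h2
    constructor
    · by_contra hc; push Not at hc; nlinarith
    · by_contra hc; push Not at hc; nlinarith
  · rintro ⟨h1, h2⟩ l
    rcases hall l with rfl | rfl | rfl | rfl
    · rw [T.face_edge_a hab]
      have h3 : r * (⟪n l, f⟫ * y.1 + ⟪n l, g⟫ * y.2) < 1 / 100 := by
        have := hbd l; nlinarith
      have h4 : 1 / 8 * √(2 / 3 : ℝ) ≤ (1 - t) * √(2 / 3 : ℝ) :=
        mul_le_mul_of_nonneg_right (by linarith [ht.2]) (Real.sqrt_nonneg _)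
      linarith
    · rw [T.face_edge_b hab]
      have h3 : r * (⟪n l, f⟫ * y.1 + ⟪n l, g⟫ * y.2) < 1 / 100 := by
        have := hbd l; nlinarith
      have h4 : 1 / 8 * √(2 / 3 : ℝ) ≤ t * √(2 / 3 : ℝ) :=
        mul_le_mul_of_nonneg_right (by linarith [ht.1]) (Real.sqrt_nonneg _)
      linarith
    · rw [T.face_edge hja hjb]; nlinarith
    · rw [T.face_edge hka hkb]; nlinarith

end

/-- **Local statement in the section plane.** -/
theorem section_area {ι : Type*} (F : Finset ι) {L : ι → Set E3} {w m : ι → Fin 4 → E3}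
    {d : ι → Fin 4 → ℝ} (hT : ∀ i ∈ F, Tet (L i) (w i) (m i) (d i))
    {K : Set E3} {v n : Fin 4 → E3} {c : Fin 4 → ℝ} (T : Tet K v n c) {a b : Fin 4} (hab : a ≠ b)
    {f g : E3} (hF : Fr (v b - v a) f g) {t r : ℝ} (ht : t ∈ Icc (1 / 8 : ℝ) (7 / 8)) (hr : 0 < r)
    (hr1 : r ≤ 1 / 100)
    (hd : ∀ i ∈ F, ∀ j ∈ F, i ≠ j → Disjoint (interior (L i)) (interior (L j)))
    (hd0 : ∀ i ∈ F, Disjoint (interior (L i)) (interior K))
    (hgood : ∀ i ∈ F, ∀ j k, j ≠ k → |⟪m i j, ept v a b t⟫ - d i j| ≤ r →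
      |⟪m i k, ept v a b t⟫ - d i k| ≤ r →
      |⟪m i j, v b - v a⟫| ≤ 1 / 10 ∧ |⟪m i k, v b - v a⟫| ≤ 1 / 10) :
    ENNReal.ofReal (3.2 / 10 ^ 8) ≤ volume {y ∈ disc |
      ept v a b t + r • (y.1 • f + y.2 • g) ∉ interior K ∪ ⋃ i ∈ F, interior (L i)} := by
  classical
  have hmem := T.ept_mem hab (t := t) ⟨by linarith [ht.1], by linarith [ht.2]⟩
  have hex : ∀ i : ι, ∃ W, i ∈ F → IsPiece W ∧ ∀ y ∈ disc,
      (ept v a b t + r • (y.1 • f + y.2 • g) ∈ interior (L i) ↔ y ∈ W) := by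
    intro i
    by_cases hi : i ∈ F
    · obtain ⟨W, hW⟩ := section_piece (hT i hi) hF (T.notMem_of_disjoint (hd0 i hi) hmem) hr
        (hgood i hi)
      exact ⟨W, fun _ => hW⟩
    · exact ⟨∅, fun h => absurd h hi⟩
  choose W hW using hex
  obtain ⟨a', b', ha', hb', hab', hG⟩ := T.edge_section hab hF ht hr hr1
  have key := planar F W (fun i hi => (hW i hi).1) ha' hb' hab'
    (fun i hi j hj hij => by
      rw [Set.disjoint_left]
      rintro y ⟨h1, h2⟩ ⟨h3, _⟩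
      exact Set.disjoint_left.1 (hd i hi j hj hij) (((hW i hi).2 y h2).2 h1)
        (((hW j hj).2 y h2).2 h3))
    (fun i hi => by
      rw [Set.disjoint_left]
      rintro y ⟨h1, h2⟩ h3
      exact Set.disjoint_left.1 (hd0 i hi) (((hW i hi).2 y h2).2 h1) ((hG y h2).2 h3))
  refine key.trans (measure_mono ?_)
  rintro y ⟨hy, hn⟩
  refine ⟨hy, ?_⟩
  rintro (h | h)
  · exact hn (Or.inl ((hG y hy).1 h))
  · rw [Set.mem_iUnion₂] at h
    obtain ⟨i, hi, h⟩ := h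
    exact hn (Or.inr (Set.mem_iUnion₂.2 ⟨i, hi, ((hW i hi).2 y hy).1 h⟩))

end Pool.Agent.TetraPack
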