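import Pool.Agent.TetraPack.Section

/-!
# Frames and Fubini
-/

namespace Pool.Agent.TetraPack

open MeasureTheory Set Real
open scoped ENNReal RealInnerProductSpace Pointwise

theorem exists_fr {u : E3} (hu : ‖u‖ = 1) : ∃ f g, Fr u f g := by
  have hO : Orthonormal ℝ (({0} : Set (Fin 3)).domRestrict (fun _ => u)) := by
    rw [orthonormal_iff_ite]
    rintro ⟨i, hi⟩ ⟨j, hj⟩
    rw [Set.mem_singleton_iff] at hi hj
    subst hi; subst hj
    simp [Set.domRestrict_apply, hu]
  obtain ⟨b, hb⟩ := hO.exists_orthonormalBasis_extension_of_card_eq (by simp)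
  have hb0 : b 0 = u := hb 0 rfl
  have hon := b.orthonormal
  have hpar : ∀ x y : E3, ⟪x, y⟫ = ⟪x, u⟫ * ⟪y, u⟫ + ⟪x, b 1⟫ * ⟪y, b 1⟫ + ⟪x, b 2⟫ * ⟪y, b 2⟫ := by
    intro x y
    have h := b.sum_inner_mul_inner x y
    rw [Fin.sum_univ_three, hb0, real_inner_comm y u, real_inner_comm y (b 1),
      real_inner_comm y (b 2)] at h
    exact h.symm
  refine ⟨b 1, b 2, hpar, ?_, hu, hon.1 1, hon.1 2, ?_, ?_, ?_⟩
  · intro p
    have h1 : MeasurePreserving (fun z : ℝ × (ℝ × ℝ) =>
        (MeasurableEquiv.piFinSuccAbove (fun _ : Fin 3 => ℝ) 0).symm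
          (z.1, (MeasurableEquiv.piFinTwo (fun _ : Fin 2 => ℝ)).symm z.2)) :=
      ((volume_preserving_piFinSuccAbove (fun _ : Fin 3 => ℝ) 0).symm _).comp
        ((MeasurePreserving.id _).prod ((volume_preserving_piFinTwo (fun _ => ℝ)).symm _))
    have h2 := (PiLp.volume_preserving_toLp (Fin 3)).comp h1
    have h3 := (b.repr.symm.measurePreserving).comp h2
    have h4 := (measurePreserving_add_left (volume : Measure E3) p).comp h3
    convert! h4 using 1
    funext z
    simp only [Function.comp_apply]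
    congr 1
    rw [← b.sum_repr (b.repr.symm _), Fin.sum_univ_three, hb0, ← add_assoc]
    simp only [LinearIsometryEquiv.apply_symm_apply]
    rfl
  · rw [← hb0]; exact hon.2 (by decide)
  · rw [← hb0]; exact hon.2 (by decide)
  · exact hon.2 (by decide)

/-- Fubini in a frame: if for `t` in a measurable set `G` the section of `S` by the disc of radius
`r` around `p + t u` has measure at least `κ` (in the unit of `r ^ 2`), then the part of `S` over
`G` has measure at least `κ * r ^ 2 * volume G`. -/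
theorem fubini {u f g : E3} (hF : Fr u f g) (p : E3) {S : Set E3} (hS : MeasurableSet S) {r : ℝ}
    (hr : 0 < r) {G : Set ℝ} (hG : MeasurableSet G) {κ : ℝ≥0∞}
    (h : ∀ t ∈ G, κ ≤ volume {y ∈ disc | p + t • u + r • (y.1 • f + y.2 • g) ∈ S}) :
    κ * ENNReal.ofReal (r ^ 2) * volume G ≤
      volume {x ∈ S | ∃ t ∈ G, ∃ y ∈ disc, x = p + t • u + r • (y.1 • f + y.2 • g)} := by
  set Φ : ℝ × (ℝ × ℝ) → E3 := fun z => p + (z.1 • u + (z.2.1 • f + z.2.2 • g)) with hΦ
  have hmp : MeasurePreserving Φ := hF.mp p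
  -- the preimage
  set B : Set (ℝ × (ℝ × ℝ)) := {z | z.1 ∈ G ∧ z.2.1 ^ 2 + z.2.2 ^ 2 < r ^ 2 ∧ Φ z ∈ S} with hB
  have hBm : MeasurableSet B := by
    refine (measurable_fst hG).inter (MeasurableSet.inter ?_ (hmp.measurable hS))
    have : Measurable (fun z : ℝ × (ℝ × ℝ) => z.2.1 ^ 2 + z.2.2 ^ 2) := by fun_prop
    exact measurableSet_lt this measurable_const
  have hinj : Function.Injective Φ := by
    rintro ⟨t, y1, y2⟩ ⟨t', y1', y2'⟩ h
    simp only [hΦ] at h
    have h := add_left_cancel h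
    have e0 := congrArg (fun x => ⟪u, x⟫) h
    have e1 := congrArg (fun x => ⟪f, x⟫) h
    have e2 := congrArg (fun x => ⟪g, x⟫) h
    have fu : ⟪f, u⟫ = (0 : ℝ) := by rw [real_inner_comm]; exact hF.uf
    have gu : ⟪g, u⟫ = (0 : ℝ) := by rw [real_inner_comm]; exact hF.ug
    have gf : ⟪g, f⟫ = (0 : ℝ) := by rw [real_inner_comm]; exact hF.fg
    simp only [inner_add_right, real_inner_smul_right, hF.uf, hF.ug, hF.fg, fu, gu, gf,
      real_inner_self_eq_norm_sq, hF.uu, hF.ff, hF.gg'] at e0 e1 e2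
    ext
    · simpa using e0
    · simpa using e1
    · simpa using e2
  -- volume of B
  have hvB : κ * ENNReal.ofReal (r ^ 2) * volume G ≤ volume B := by
    rw [Measure.volume_eq_prod, Measure.prod_apply hBm]
    calc κ * ENNReal.ofReal (r ^ 2) * volume G = ∫⁻ _t in G, κ * ENNReal.ofReal (r ^ 2) := by
          rw [setLIntegral_const]
      _ ≤ ∫⁻ t in G, volume (Prod.mk t ⁻¹' B) := by
          refine setLIntegral_mono (measurable_measure_prodMk_left hBm) fun t ht => ?_
          have h1 : r • {y ∈ disc | p + t • u + r • (y.1 • f + y.2 • g) ∈ S} ⊆ Prod.mk t ⁻¹' B := by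
            rintro _ ⟨y, ⟨hy1, hy2⟩, rfl⟩
            change y.1 ^ 2 + y.2 ^ 2 < 1 at hy1
            refine ⟨ht, ?_, ?_⟩
            · change (r * y.1) ^ 2 + (r * y.2) ^ 2 < r ^ 2
              nlinarith [sq_pos_of_pos hr]
            · change p + (t • u + ((r * y.1) • f + (r * y.2) • g)) ∈ S
              have : p + (t • u + ((r * y.1) • f + (r * y.2) • g)) =
                  p + t • u + r • (y.1 • f + y.2 • g) := by module
              rw [this]; exact hy2
          refine le_trans ?_ (measure_mono h1)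
          rw [Measure.addHaar_smul, mul_comm κ]
          have : Module.finrank ℝ (ℝ × ℝ) = 2 := by simp
          rw [this, abs_of_nonneg (by positivity)]
          exact mul_le_mul' le_rfl (h t ht)
      _ ≤ ∫⁻ t, volume (Prod.mk t ⁻¹' B) := setLIntegral_le_lintegral _ _
  refine hvB.trans ?_
  -- `B` is the preimage of its image
  have hBim : B = Φ ⁻¹' (Φ '' B) := (hinj.preimage_image B).symm
  have hcont : Continuous Φ := by fun_prop
  have hmeas : MeasurableSet (Φ '' B) := hBm.image_of_continuousOn_injOn hcont.continuousOn hinj.injOn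
  rw [hBim, hmp.measure_preimage hmeas.nullMeasurableSet]
  refine measure_mono ?_
  rintro _ ⟨⟨t, y⟩, ⟨h1, h2, h3⟩, rfl⟩
  refine ⟨h3, t, h1, (y.1 / r, y.2 / r), ?_, ?_⟩
  · change (y.1 / r) ^ 2 + (y.2 / r) ^ 2 < 1
    rw [div_pow, div_pow, ← add_div, div_lt_one (by positivity)]
    exact h2
  · change p + (t • u + (y.1 • f + y.2 • g)) = _
    have e1 : y.1 = r * (y.1 / r) := by field_simp
    have e2 : y.2 = r * (y.2 / r) := by field_simp
    have : r • ((y.1 / r) • f + (y.2 / r) • g) = y.1 • f + y.2 • g := by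
      rw [smul_add, smul_smul, smul_smul, ← e1, ← e2]
    rw [this]; abel

end Pool.Agent.TetraPack
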