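import Pool.Agent.TetraPack.Local

/-!
# From the local uncovered volume to the density
-/

namespace Pool.Agent.TetraPack

open MeasureTheory Set Real Filter
open scoped ENNReal RealInnerProductSpace Topology

variable {ι : Type*} {K : ι → Set E3}

/-- volume of the ball of radius `1 + rr` -/
noncomputable def bb : ℝ := (1 + rr) ^ 3 * (π * 4 / 3)

lemma rr_pos : 0 < rr := by unfold rr; norm_num

lemma bb_pos : 0 < bb := by
  have := rr_pos
  unfold bb; positivity

lemma volume_ball' (x : E3) {ρ : ℝ} (hρ : 0 ≤ ρ) :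
    volume (Metric.closedBall x ρ) = ENNReal.ofReal (ρ ^ 3 * (π * 4 / 3)) := by
  rw [EuclideanSpace.volume_closedBall_fin_three, ENNReal.ofReal_mul (by positivity),
    ENNReal.ofReal_pow hρ]

/-- multiplicity -/
lemma Pack.mult (P : Pack K) (F : Finset ι) (x : E3)
    (hF : ∀ i ∈ F, x ∈ Metric.thickening rr (K i)) :
    ∑ i ∈ F, volume (K i) ≤ ENNReal.ofReal bb := by
  have hr := rr_pos
  refine (P.sum_le F (S := Metric.closedBall x (1 + rr)) fun i hi => ?_).trans_eq ?_
  · intro y hy
    have h1 := hF i hi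
    rw [Metric.mem_thickening_iff] at h1
    obtain ⟨z, hz, hxz⟩ := h1
    rw [Metric.mem_closedBall]
    have h2 := (P.tet i).dist_le (interior_subset hy) hz
    have h3 := dist_triangle y z x
    rw [dist_comm z x] at h3
    linarith
  · rw [volume_ball' x (by positivity)]; rfl

/-- weighted counting of the uncovered volume -/
theorem Pack.weighted (P : Pack K) (F : Finset ι) {R : ℝ}
    (hF : ∀ i ∈ F, K i ⊆ Metric.closedBall 0 (R + 1)) :
    ENNReal.ofReal (6 * ce) * ∑ i ∈ F, volume (K i) ≤
      ENNReal.ofReal bb * volume (unc K ∩ Metric.closedBall 0 (R + 2)) := by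
  classical
  have hr := rr_pos
  set U := unc K with hU
  set B := Metric.closedBall (0 : E3) (R + 2) with hB
  set T : ι → Set E3 := fun i => Metric.thickening rr (K i) with hT
  have hTm : ∀ i, MeasurableSet (T i) := fun i => Metric.isOpen_thickening.measurableSet
  have hUm : MeasurableSet (U ∩ B) := (measurableSet_unc K).inter measurableSet_closedBall
  have hTB : ∀ i ∈ F, T i ⊆ B := by
    intro i hi x hx
    rw [hT, Metric.mem_thickening_iff] at hx
    obtain ⟨z, hz, hxz⟩ := hx
    have h1 := hF i hi hz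
    rw [Metric.mem_closedBall] at h1 ⊢
    have h2 := dist_triangle x z 0
    have h3 : rr ≤ 1 := by unfold rr; norm_num
    linarith
  calc ENNReal.ofReal (6 * ce) * ∑ i ∈ F, volume (K i)
      = ∑ i ∈ F, volume (K i) * ENNReal.ofReal (6 * ce) := by
        rw [Finset.mul_sum]; exact Finset.sum_congr rfl fun i _ => mul_comm _ _
    _ ≤ ∑ i ∈ F, volume (K i) * volume (T i ∩ (U ∩ B)) := by
        refine Finset.sum_le_sum fun i hi => mul_le_mul' le_rfl ?_
        refine (member_local P i).trans (measure_mono ?_)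
        rintro x ⟨hx1, hx2⟩
        exact ⟨hx2, hx1, hTB i hi hx2⟩
    _ = ∑ i ∈ F, ∫⁻ x in U ∩ B, (T i).indicator (fun _ => volume (K i)) x := by
        refine Finset.sum_congr rfl fun i _ => ?_
        rw [lintegral_indicator_const (hTm i), Measure.restrict_apply (hTm i)]
    _ = ∫⁻ x in U ∩ B, ∑ i ∈ F, (T i).indicator (fun _ => volume (K i)) x := by
        rw [lintegral_finsetSum]
        intro i _
        exact measurable_const.indicator (hTm i)
    _ ≤ ∫⁻ _x in U ∩ B, ENNReal.ofReal bb := by
        refine lintegral_mono fun x => ?_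
        have h1 : ∑ i ∈ F, (T i).indicator (fun _ => volume (K i)) x =
            ∑ i ∈ F.filter (fun i => x ∈ T i), volume (K i) := by
          rw [Finset.sum_filter]
          exact Finset.sum_congr rfl fun i _ => by rw [Set.indicator_apply]
        change ∑ i ∈ F, (T i).indicator (fun _ => volume (K i)) x ≤ ENNReal.ofReal bb
        rw [h1]
        exact P.mult _ x fun i hi => (Finset.mem_filter.1 hi).2
    _ = ENNReal.ofReal bb * volume (U ∩ B) := by rw [setLIntegral_const]

/-- the covered volume in the ball of radius `R` -/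
noncomputable def SS (K : ι → Set E3) (R : ℝ) : ℝ≥0∞ := ∑' i, volume (K i ∩ Metric.closedBall 0 R)

lemma Pack.countable (P : Pack K) : Countable ι := by
  have h : (⋃ n : ℕ, {i | K i ⊆ Metric.closedBall (0 : E3) n}) = Set.univ := by
    refine Set.eq_univ_of_forall fun i => ?_
    rw [Set.mem_iUnion]
    obtain ⟨R, hR⟩ := (P.tet i).isCompact.isBounded.subset_closedBall (0 : E3)
    obtain ⟨n, hn⟩ := exists_nat_ge R
    exact ⟨n, hR.trans (Metric.closedBall_subset_closedBall hn)⟩
  rw [← Set.countable_univ_iff, ← h]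
  exact Set.countable_iUnion fun n => (P.finite 0 n).countable

lemma Pack.add_le (P : Pack K) (R : ℝ) :
    volume (unc K ∩ Metric.closedBall 0 R) + SS K R ≤ volume (Metric.closedBall (0 : E3) R) := by
  have := P.countable
  have h1 : SS K R = volume (⋃ i, interior (K i) ∩ Metric.closedBall 0 R) := by
    rw [measure_iUnion]
    · unfold SS
      refine tsum_congr fun i => ?_
      exact (measure_congr ((P.tet i).interior_ae.inter (ae_eq_refl _))).symm
    · intro i j hij
      exact (P.disj i j hij).mono inter_subset_left inter_subset_left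
    · exact fun i => isOpen_interior.measurableSet.inter measurableSet_closedBall
  rw [h1, ← measure_union]
  · refine measure_mono ?_
    refine Set.union_subset inter_subset_right (Set.iUnion_subset fun i => inter_subset_right)
  · rw [Set.disjoint_left]
    rintro x ⟨hx, _⟩ hx2
    rw [Set.mem_iUnion] at hx2
    obtain ⟨i, hi, _⟩ := hx2
    exact hx (Set.mem_iUnion.2 ⟨i, hi⟩)
  · exact MeasurableSet.iUnion fun i => isOpen_interior.measurableSet.inter measurableSet_closedBall

lemma Pack.main (P : Pack K) {R : ℝ} (hR : 0 ≤ R) :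
    ENNReal.ofReal (6 * ce + bb) * SS K R ≤
      ENNReal.ofReal bb * volume (Metric.closedBall (0 : E3) (R + 2)) := by
  classical
  have hce : 0 ≤ ce := by unfold ce rr; norm_num
  set I : Set ι := {i | (K i ∩ Metric.closedBall 0 R).Nonempty} with hI
  have hIsub : ∀ i ∈ I, K i ⊆ Metric.closedBall 0 (R + 1) := by
    rintro i ⟨z, hz1, hz2⟩ x hx
    rw [Metric.mem_closedBall] at hz2 ⊢
    have h1 := (P.tet i).dist_le hx hz1
    have h2 := dist_triangle x z 0
    linarith
  have hfin : I.Finite := (P.finite 0 (R + 1)).subset hIsub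
  set F := hfin.toFinset with hF
  have h1 : SS K R ≤ ∑ i ∈ F, volume (K i) := by
    unfold SS
    rw [tsum_eq_sum (s := F)]
    · exact Finset.sum_le_sum fun i _ => measure_mono inter_subset_left
    · intro i hi
      have : ¬ (K i ∩ Metric.closedBall 0 R).Nonempty := fun h => hi (hfin.mem_toFinset.2 h)
      rw [Set.not_nonempty_iff_eq_empty] at this
      rw [this, measure_empty]
  have h2 := P.weighted F (R := R) fun i hi => hIsub i (hfin.mem_toFinset.1 hi)
  have h3 := P.add_le (R + 2)
  have h4 : SS K R ≤ SS K (R + 2) := by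
    unfold SS
    refine ENNReal.tsum_le_tsum fun i => measure_mono ?_
    exact inter_subset_inter_right _ (Metric.closedBall_subset_closedBall (by linarith))
  calc ENNReal.ofReal (6 * ce + bb) * SS K R
      = ENNReal.ofReal (6 * ce) * SS K R + ENNReal.ofReal bb * SS K R := by
        rw [ENNReal.ofReal_add (by positivity) bb_pos.le, add_mul]
    _ ≤ ENNReal.ofReal (6 * ce) * ∑ i ∈ F, volume (K i) + ENNReal.ofReal bb * SS K (R + 2) :=
        add_le_add (mul_le_mul' le_rfl h1) (mul_le_mul' le_rfl h4)
    _ ≤ ENNReal.ofReal bb * volume (unc K ∩ Metric.closedBall 0 (R + 2)) +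
        ENNReal.ofReal bb * SS K (R + 2) := add_le_add h2 le_rfl
    _ = ENNReal.ofReal bb * (volume (unc K ∩ Metric.closedBall 0 (R + 2)) + SS K (R + 2)) := by
        rw [mul_add]
    _ ≤ _ := mul_le_mul' le_rfl h3

lemma quot_bound : bb / (6 * ce + bb) ≤ 1 - 3.2 / 10 ^ 16 := by
  have hpi1 := Real.pi_gt_d4
  have hpi2 := Real.pi_lt_d4
  have hb : bb ≤ 4.191 := by
    unfold bb rr
    norm_num at hpi2 ⊢
    linarith
  have hb0 := bb_pos
  have hc : 1.3789 / 10 ^ 15 ≤ 6 * ce := by
    unfold ce rr; norm_num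
  have hc0 : 0 < 6 * ce + bb := by
    have : (0 : ℝ) < 1.3789 / 10 ^ 15 := by norm_num
    linarith
  rw [div_le_iff₀ hc0]
  norm_num at hb hc ⊢
  nlinarith

/-- **The density of a packing by regular tetrahedra.** -/
theorem Pack.density (P : Pack K) :
    limsup (fun r : ℝ => (∑' i, volume (K i ∩ Metric.closedBall 0 r)) /
      volume (Metric.closedBall (0 : E3) r)) atTop ≤ ENNReal.ofReal (1 - 3.2 / 10 ^ 16) := by
  have hce : 0 ≤ ce := by unfold ce rr; norm_num
  have hbb := bb_pos
  set q := bb / (6 * ce + bb) with hq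
  have hlim : Tendsto (fun R : ℝ => ENNReal.ofReal (q * ((R + 2) / R) ^ 3)) atTop
      (𝓝 (ENNReal.ofReal q)) := by
    refine (ENNReal.continuous_ofReal.tendsto q).comp ?_
    have h1 : Tendsto (fun R : ℝ => (R + 2) / R) atTop (𝓝 1) := by
      have h2 : Tendsto (fun R : ℝ => 1 + 2 / R) atTop (𝓝 (1 + 0)) :=
        tendsto_const_nhds.add (tendsto_const_nhds.div_atTop tendsto_id)
      rw [add_zero] at h2
      refine h2.congr' ?_
      filter_upwards [eventually_gt_atTop 0] with R hR
      field_simp
    have h3 := (h1.pow 3).const_mul q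
    simpa using h3
  refine le_trans ?_ (ENNReal.ofReal_le_ofReal quot_bound)
  rw [← hlim.limsup_eq]
  refine limsup_le_limsup ?_
  filter_upwards [eventually_gt_atTop 0] with R hR
  have hV : volume (Metric.closedBall (0 : E3) R) = ENNReal.ofReal (R ^ 3 * (π * 4 / 3)) :=
    volume_ball' 0 hR.le
  have hV2 : volume (Metric.closedBall (0 : E3) (R + 2)) =
      ENNReal.ofReal ((R + 2) ^ 3 * (π * 4 / 3)) := volume_ball' 0 (by linarith)
  have hV0 : 0 < R ^ 3 * (π * 4 / 3) := by positivity
  have hm := P.main hR.le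
  rw [hV2, ← ENNReal.ofReal_mul hbb.le] at hm
  change SS K R / _ ≤ _
  rw [hV]
  have hs0 : 0 < 6 * ce + bb := by positivity
  have h1 : SS K R ≤ ENNReal.ofReal (bb * ((R + 2) ^ 3 * (π * 4 / 3)) / (6 * ce + bb)) := by
    rw [ENNReal.ofReal_div_of_pos hs0, ENNReal.le_div_iff_mul_le]
    · rw [mul_comm]; exact hm
    · left; exact (ENNReal.ofReal_pos.2 hs0).ne'
    · left; exact ENNReal.ofReal_ne_top
  rw [ENNReal.div_le_iff (ENNReal.ofReal_pos.2 hV0).ne' ENNReal.ofReal_ne_top,
    ← ENNReal.ofReal_mul (by positivity)]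
  refine h1.trans_eq ?_
  congr 1
  rw [hq]
  field_simp

end Pool.Agent.TetraPack
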