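import Pool.Agent.TetraPack.EdgeSec
import Pool.Agent.TetraPack.Frame
import Pool.Agent.TetraPack.Bad
import Pool.Agent.TetraPack.Count

/-!
# The uncovered volume near an edge and near a member
-/

namespace Pool.Agent.TetraPack

open MeasureTheory Set Real
open scoped ENNReal RealInnerProductSpace

/-- the radius of the tubes -/
noncomputable def rr : ℝ := 1 / 5900

/-- the tube around the middle part of the edge `a b` -/
def tube (v : Fin 4 → E3) (a b : Fin 4) : Set E3 :=
  {x | ∃ t ∈ Icc (1 / 8 : ℝ) (7 / 8), ‖x - ept v a b t‖ < rr}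

lemma isOpen_tube (v : Fin 4 → E3) (a b : Fin 4) : IsOpen (tube v a b) := by
  have : tube v a b = ⋃ t ∈ Icc (1 / 8 : ℝ) (7 / 8), Metric.ball (ept v a b t) rr := by
    ext x
    simp only [tube, mem_ofPred_eq, mem_iUnion, Metric.mem_ball, dist_eq_norm, exists_prop]
  rw [this]
  exact isOpen_biUnion fun _ _ => Metric.isOpen_ball

variable {ι : Type*} {K : ι → Set E3}

/-- the uncovered volume in the tube around an edge -/
noncomputable def ce : ℝ := 3.2 / 10 ^ 8 * rr ^ 2 * (1 / 4)

lemma norm_frame {u f g : E3} (hF : Fr u f g) (y : ℝ × ℝ) (hy : y ∈ disc) :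
    ‖y.1 • f + y.2 • g‖ < 1 := by
  have h1 : ‖y.1 • f + y.2 • g‖ ^ 2 = y.1 ^ 2 + y.2 ^ 2 := by
    rw [norm_add_sq_real, real_inner_smul_left, real_inner_smul_right, hF.fg, norm_smul, norm_smul,
      hF.ff, hF.gg']
    simp
  change y.1 ^ 2 + y.2 ^ 2 < 1 at hy
  rw [← h1] at hy
  exact (sq_lt_one_iff₀ (norm_nonneg _)).1 hy

theorem edge_local (P : Pack K) (i₀ : ι) {v n : Fin 4 → E3} {c : Fin 4 → ℝ} (T : Tet (K i₀) v n c)
    {a b : Fin 4} (hab : a ≠ b) :
    ENNReal.ofReal ce ≤ volume (unc K ∩ tube v a b) := by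
  classical
  have hpi := Real.pi_lt_d4
  have hpi' := Real.pi_pos
  norm_num at hpi
  have hu : ‖v b - v a‖ = 1 := by rw [← dist_eq_norm]; exact T.hv b a hab.symm
  obtain ⟨f, g, hF⟩ := exists_fr hu
  have hrr : (0 : ℝ) < rr := by unfold rr; norm_num
  -- the members near the edge
  set M : Set ι := {i | i ≠ i₀ ∧ (interior (K i) ∩ tube v a b).Nonempty} with hM
  have hball : ∀ i ∈ M, K i ⊆ Metric.closedBall (ept v a b (1 / 2)) (11 / 8 + rr) := by
    rintro i ⟨_, z, hz1, t, ht, hz2⟩ x hx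
    rw [Metric.mem_closedBall]
    have h1 : dist x z ≤ 1 := (P.tet i).dist_le hx (interior_subset hz1)
    have h2 : dist z (ept v a b t) ≤ rr := by rw [dist_eq_norm]; exact hz2.le
    have h3 : dist (ept v a b t) (ept v a b (1 / 2)) ≤ 3 / 8 := by
      rw [dist_eq_norm]
      have : ept v a b t - ept v a b (1 / 2) = (t - 1 / 2) • (v b - v a) := by
        unfold ept; module
      rw [this, norm_smul, hu, mul_one, Real.norm_eq_abs, abs_le]
      constructor <;> linarith [ht.1, ht.2]
    have h4 := dist_triangle4 x z (ept v a b t) (ept v a b (1 / 2))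
    linarith
  have hfin : M.Finite := (P.finite (ept v a b (1 / 2)) (11 / 8 + rr)).subset hball
  set F : Finset ι := hfin.toFinset with hFdef
  have hFM : ∀ i, i ∈ F ↔ i ∈ M := fun i => hfin.mem_toFinset
  have hcard : (F.card : ℝ) ≤ 92 := by
    have h1 := P.card_le F (x := ept v a b (1 / 2)) (ρ := 11 / 8 + rr) (by positivity)
      fun i hi => hball i ((hFM i).1 hi)
    have h2 : (11 / 8 + rr) ^ 3 * (π * 4 / 3) < 93 * 0.1178 := by
      have h3 : (11 / 8 + rr) ^ 3 ≤ 2.601 := by unfold rr; norm_num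
      have h4 : (11 / 8 + rr) ^ 3 * (π * 4 / 3) ≤ 2.601 * (π * 4 / 3) :=
        mul_le_mul_of_nonneg_right h3 (by positivity)
      norm_num at h4 ⊢
      linarith
    have h3 : (F.card : ℝ) < 93 := by
      by_contra hc
      push Not at hc
      have : (93 : ℝ) * 0.1178 ≤ F.card * 0.1178 := by gcongr
      linarith
    have h4 : F.card < 93 := by exact_mod_cast h3
    exact_mod_cast Nat.le_of_lt_succ h4
  -- data of all members
  have hex : ∀ i, ∃ w m d, Tet (K i) w m d := fun i => exists_tet (P.tet i)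
  choose w m d hT using hex
  have hbad := fun i => bad_measure (hT i) (v a) hu hrr.le
  choose B hBm hBv hBg using hbad
  set G : Set ℝ := Icc (1 / 8 : ℝ) (7 / 8) \ ⋃ i ∈ F, B i with hG
  have hUm : MeasurableSet (⋃ i ∈ F, B i) := Finset.measurableSet_biUnion F fun i _ => hBm i
  have hGm : MeasurableSet G := measurableSet_Icc.diff hUm
  have hGv : ENNReal.ofReal (1 / 4) ≤ volume G := by
    have h1 : volume (⋃ i ∈ F, B i) ≤ ENNReal.ofReal (92 * (32 * rr)) := by
      calc volume (⋃ i ∈ F, B i) ≤ ∑ i ∈ F, volume (B i) := measure_biUnion_finset_le _ _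
        _ ≤ ∑ _i ∈ F, ENNReal.ofReal (32 * rr) := Finset.sum_le_sum fun i _ => hBv i
        _ = ENNReal.ofReal (F.card * (32 * rr)) := by
            rw [Finset.sum_const, nsmul_eq_mul, ENNReal.ofReal_mul (p := (F.card : ℝ)) (by positivity),
              ENNReal.ofReal_natCast]
        _ ≤ _ := ENNReal.ofReal_le_ofReal (by gcongr)
    have h2 : volume (Icc (1 / 8 : ℝ) (7 / 8)) = ENNReal.ofReal (3 / 4) := by
      rw [Real.volume_Icc]; norm_num
    have h3 : volume (Icc (1 / 8 : ℝ) (7 / 8)) ≤ volume G + volume (⋃ i ∈ F, B i) := by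
      refine (measure_mono ?_).trans (measure_union_le _ _)
      intro t ht
      by_cases h : t ∈ ⋃ i ∈ F, B i
      · exact Or.inr h
      · exact Or.inl ⟨ht, h⟩
    rw [h2] at h3
    have h4 := h3.trans (add_le_add_right h1 _)
    rw [← tsub_le_iff_right, ← ENNReal.ofReal_sub _ (by positivity)] at h4
    refine le_trans (ENNReal.ofReal_le_ofReal ?_) h4
    unfold rr; norm_num
  have key := fubini hF (v a) (measurableSet_unc K) hrr hGm (κ := ENNReal.ofReal (3.2 / 10 ^ 8))
    (fun t ht => by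
      have htI : t ∈ Icc (1 / 8 : ℝ) (7 / 8) := ht.1
      have htB : ∀ i ∈ F, t ∉ B i := fun i hi hti => ht.2 (Set.mem_iUnion₂.2 ⟨i, hi, hti⟩)
      have h1 := section_area F (L := K) (fun i _ => hT i) T hab hF htI hrr
        (by unfold rr; norm_num)
        (fun i _ j _ hij => P.disj i j hij)
        (fun i hi => P.disj i i₀ ((hFM i).1 hi).1)
        (fun i hi j k hjk => hBg i t (htB i hi) j k hjk)
      refine h1.trans (measure_mono ?_)
      rintro y ⟨hy, hyn⟩
      refine ⟨hy, ?_⟩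
      intro hmem
      rw [Set.mem_iUnion] at hmem
      obtain ⟨i, hi⟩ := hmem
      change ept v a b t + rr • (y.1 • f + y.2 • g) ∈ interior (K i) at hi
      by_cases hii : i = i₀
      · subst hii; exact hyn (Or.inl hi)
      · refine hyn (Or.inr (Set.mem_iUnion₂.2 ⟨i, (hFM i).2 ⟨hii, _, hi, t, htI, ?_⟩, hi⟩))
        rw [add_sub_cancel_left, norm_smul, Real.norm_eq_abs, abs_of_pos hrr]
        have := norm_frame hF y hy
        nlinarith)
  calc ENNReal.ofReal ce = ENNReal.ofReal (3.2 / 10 ^ 8) * ENNReal.ofReal (rr ^ 2) *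
        ENNReal.ofReal (1 / 4) := by
        rw [← ENNReal.ofReal_mul (by norm_num), ← ENNReal.ofReal_mul (by positivity)]
        rfl
    _ ≤ ENNReal.ofReal (3.2 / 10 ^ 8) * ENNReal.ofReal (rr ^ 2) * volume G :=
        mul_le_mul' le_rfl hGv
    _ ≤ _ := key
    _ ≤ _ := by
        refine measure_mono ?_
        rintro x ⟨hx, t, ht, y, hy, rfl⟩
        refine ⟨hx, t, ht.1, ?_⟩
        change ‖ept v a b t + rr • (y.1 • f + y.2 • g) - ept v a b t‖ < rr
        rw [add_sub_cancel_left, norm_smul, Real.norm_eq_abs, abs_of_pos hrr]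
        have := norm_frame hF y hy
        nlinarith

/-- the tubes of different edges are disjoint -/
lemma tube_disjoint {K : Set E3} {v n : Fin 4 → E3} {c : Fin 4 → ℝ} (T : Tet K v n c)
    {a b a' b' l : Fin 4} (hab : a ≠ b) (hl : l = a ∨ l = b) (ha' : l ≠ a') (hb' : l ≠ b') :
    Disjoint (tube v a b) (tube v a' b') := by
  rw [Set.disjoint_left]
  rintro x ⟨t, ht, hx⟩ ⟨t', ht', hx'⟩
  have hh := h_bounds.1
  have h1 : |⟪n l, x - ept v a b t⟫| < rr := by
    refine (abs_real_inner_le_norm _ _).trans_lt ?_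
    rw [T.nn, one_mul]; exact hx
  have h2 : |⟪n l, x - ept v a' b' t'⟫| < rr := by
    refine (abs_real_inner_le_norm _ _).trans_lt ?_
    rw [T.nn, one_mul]; exact hx'
  rw [inner_sub_right] at h1 h2
  rw [T.face_edge ha' hb'] at h2
  have h3 : ⟪n l, ept v a b t⟫ ≤ c l - 1 / 8 * √(2 / 3) := by
    rcases hl with rfl | rfl
    · rw [T.face_edge_a hab]
      nlinarith [ht.2]
    · rw [T.face_edge_b hab]
      nlinarith [ht.1]
  have h4 := (abs_lt.1 h1).2
  have h5 := (abs_lt.1 h2).1
  unfold rr at h4 h5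
  linarith

theorem member_local (P : Pack K) (i₀ : ι) :
    ENNReal.ofReal (6 * ce) ≤ volume (unc K ∩ Metric.thickening rr (K i₀)) := by
  classical
  obtain ⟨v, n, c, T⟩ := exists_tet (P.tet i₀)
  set E : Finset (Fin 4 × Fin 4) := Finset.univ.filter fun p => p.1 < p.2 with hE
  have hcard : E.card = 6 := by decide
  have hce : 0 ≤ ce := by unfold ce rr; norm_num
  have hsub : ∀ p ∈ E, unc K ∩ tube v p.1 p.2 ⊆ unc K ∩ Metric.thickening rr (K i₀) := by
    rintro p hp x ⟨hx, t, ht, hxt⟩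
    rw [hE, Finset.mem_filter] at hp
    refine ⟨hx, ?_⟩
    rw [Metric.mem_thickening_iff]
    exact ⟨ept v p.1 p.2 t, T.ept_mem hp.2.ne ⟨by linarith [ht.1], by linarith [ht.2]⟩,
      by rw [dist_eq_norm]; exact hxt⟩
  have hdisj : Set.PairwiseDisjoint (↑E : Set (Fin 4 × Fin 4))
      (fun p => unc K ∩ tube v p.1 p.2) := by
    rintro ⟨a, b⟩ hp ⟨a', b'⟩ hq hne
    rw [hE, Finset.coe_filter] at hp hq
    have h1 : a < b := hp.2
    have h2 : a' < b' := hq.2
    have hl : ∃ l : Fin 4, (l = a ∨ l = b) ∧ l ≠ a' ∧ l ≠ b' := by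
      have : ∀ a b a' b' : Fin 4, a < b → a' < b' → (a, b) ≠ (a', b') →
          ∃ l : Fin 4, (l = a ∨ l = b) ∧ l ≠ a' ∧ l ≠ b' := by decide
      exact this a b a' b' h1 h2 hne
    obtain ⟨l, hl, hl1, hl2⟩ := hl
    exact (tube_disjoint T h1.ne hl hl1 hl2).mono inter_subset_right inter_subset_right
  calc ENNReal.ofReal (6 * ce) = ∑ _p ∈ E, ENNReal.ofReal ce := by
        rw [Finset.sum_const, hcard, nsmul_eq_mul, ENNReal.ofReal_mul (by norm_num)]
        norm_num
    _ ≤ ∑ p ∈ E, volume (unc K ∩ tube v p.1 p.2) := by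
        refine Finset.sum_le_sum fun p hp => ?_
        rw [hE, Finset.mem_filter] at hp
        exact edge_local P i₀ T hp.2.ne
    _ = volume (⋃ p ∈ E, unc K ∩ tube v p.1 p.2) :=
        (measure_biUnion_finset hdisj fun p _ =>
          (measurableSet_unc K).inter (isOpen_tube _ _ _).measurableSet).symm
    _ ≤ _ := measure_mono (Set.iUnion₂_subset hsub)

end Pool.Agent.TetraPack
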