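import Pool.Agent.TetraPack.Wedge

/-!
# The arc functions of half planes and wedges, abstractly
-/

namespace Pool.Agent.TetraPack

open MeasureTheory Set Real
open scoped ENNReal

/-- The properties of the arc function `A` of a half plane or wedge that are used. -/
structure Pc (A : ℝ → ℝ) (P q α : ℝ) : Prop where
  P_nonneg : 0 ≤ P
  α1 : 1.21 ≤ α
  α2 : α ≤ 1.245
  up1 : ∀ s, 0 < s → s < 1 → A s ≤ π - 2 * arcsin (P / s)
  lo : ∀ s, 0 < s → s < 1 →
    min (π - 2 * arcsin (P / s)) (α + arcsin (q / s) - arcsin (P / s)) ≤ A s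
  nn : ∀ s, 0 ≤ A s
  up2 : ∀ s, 0 < s → s < 1 → arcsin (q / s) ≤ α →
    A s ≤ max 0 (min (π - 2 * arcsin (P / s)) (α + arcsin (q / s) - arcsin (P / s)))
  sat : ∀ s, 0 < s → s < 1 → s < q → A s = π - 2 * arcsin (P / s)

theorem pc_hp {a : ℝ × ℝ} (ha : a.1 ^ 2 + a.2 ^ 2 = 1) {p : ℝ} (hp0 : p ≤ 0) :
    Pc (arc (hp a p)) (-p) 2 1.22 where
  P_nonneg := by linarith
  α1 := by norm_num
  α2 := by norm_num
  up1 := fun s hs _ => (arc_hp ha hs).le
  lo := fun s hs _ => (min_le_left _ _).trans (arc_hp ha hs).ge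
  nn := fun s => arc_nonneg _ _
  up2 := by
    intro s hs hs1 h
    exfalso
    rw [arcsin_of_one_le (by rw [le_div_iff₀ hs]; linarith)] at h
    have := Real.pi_gt_d2
    norm_num at h
    linarith
  sat := fun s hs _ _ => arc_hp ha hs

theorem pc_wedge {a b : ℝ × ℝ} (ha : a.1 ^ 2 + a.2 ^ 2 = 1) (hb : b.1 ^ 2 + b.2 ^ 2 = 1)
    {α p q : ℝ} (hab : a.1 * b.1 + a.2 * b.2 = -cos α) (h1 : 1.21 ≤ α) (h2 : α ≤ 1.245)
    (hp0 : p ≤ 0) : Pc (arc (hp a p ∩ hp b q)) (-p) q α := by
  have hpi1 := Real.pi_gt_d2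
  have hpi2 := Real.pi_lt_d2
  norm_num at h1 h2 hpi1 hpi2
  have hδ1 : π / 2 < π - α := by linarith
  have hδ2 : π - α < π := by linarith
  have key : ∀ s, 0 < s → arccos (-p / s) = π / 2 - arcsin (-p / s) ∧
      arccos (-q / s) = π / 2 + arcsin (q / s) := by
    intro s hs
    refine ⟨rfl, ?_⟩
    rw [arccos, neg_div, arcsin_neg]; ring
  have hc : ∀ s, 0 < s → 0 ≤ -p / s := fun s hs => div_nonneg (by linarith) hs.le
  have hfin : ∀ c d δ : ℝ, volume (std c d δ) ≠ ∞ := by
    intro c d δ
    refine ne_top_of_le_ne_top ?_ (measure_mono (std_subset' c d δ))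
    rw [Real.volume_Ioo]; exact ENNReal.ofReal_ne_top
  have hIoo : ∀ c w δ : ℝ, c - max (-c) (δ - w) = min (2 * c) (c + w - δ) := by
    intro c w δ
    rw [← min_sub_sub_left]
    congr 1 <;> ring
  refine ⟨by linarith, by norm_num; exact h1, by norm_num; exact h2, ?_, ?_, fun s => arc_nonneg _ _, ?_, ?_⟩
  · intro s hs _
    rw [arc_wedge_eq ha hb hab hs]
    have := ENNReal.toReal_mono (by rw [Real.volume_Ioo]; exact ENNReal.ofReal_ne_top)
      (measure_mono (μ := volume) (std_subset' (-p / s) (-q / s) (π - α)))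
    refine this.trans ?_
    rw [Real.volume_Ioo, ENNReal.toReal_ofReal (by have := arccos_nonneg (-p / s); linarith),
      (key s hs).1]
    linarith
  · intro s hs _
    rw [arc_wedge_eq ha hb hab hs]
    have := ENNReal.toReal_mono (hfin _ _ _) (measure_mono (μ := volume)
      (subset_std (c := -p / s) (d := -q / s) (hc s hs) hδ1 hδ2))
    refine le_trans ?_ this
    rw [Real.volume_Ioo]
    refine le_trans ?_ (le_ofReal_toReal_aux _)
    rw [hIoo, (key s hs).1, (key s hs).2]
    apply le_of_eq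
    congr 1 <;> ring
  · intro s hs _ hQ
    rw [arc_wedge_eq ha hb hab hs]
    have := ENNReal.toReal_mono (by rw [Real.volume_Ioo]; exact ENNReal.ofReal_ne_top)
      (measure_mono (μ := volume) (std_subset (c := -p / s) (d := -q / s) (hc s hs) hδ1 hδ2
        (by rw [(key s hs).2]; linarith)))
    refine this.trans ?_
    rw [Real.volume_Ioo, ENNReal.toReal_ofReal', hIoo, (key s hs).1, (key s hs).2, max_comm]
    apply le_of_eq
    congr 2 <;> ring
  · intro s hs _ hsq
    rw [arc_wedge_eq ha hb hab hs]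
    have hd : -q / s < -1 := by rw [div_lt_iff₀ hs]; linarith
    rw [std_of_lt hd, volume_half, ENNReal.toReal_ofReal (by
      have := arccos_nonneg (-p / s); linarith), (key s hs).1]
    ring
where
  le_ofReal_toReal_aux (x : ℝ) : x ≤ (ENNReal.ofReal x).toReal := by
    rw [ENNReal.toReal_ofReal']; exact le_max_left _ _

lemma arcsin_mul_le {v t : ℝ} (hv0 : 0 ≤ v) (hv1 : v ≤ 1) (ht0 : 0 ≤ t) (ht1 : t ≤ 1) :
    arcsin (t * v) ≤ t * arcsin v := by
  have h1 : 0 ≤ arcsin v := arcsin_nonneg.2 hv0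
  have h2 : arcsin v ≤ π / 2 := arcsin_le_pi_div_two v
  have h3 : t * v ≤ sin (t * arcsin v) := by
    have hc := strictConcaveOn_sin_Icc.concaveOn
    have h4 := hc.2 (show (0 : ℝ) ∈ Icc 0 π from ⟨le_rfl, by positivity⟩)
      (show arcsin v ∈ Icc 0 π from ⟨h1, by linarith [Real.pi_pos]⟩)
      (show (0 : ℝ) ≤ 1 - t by linarith) ht0 (by ring)
    simp only [smul_eq_mul, sin_zero, mul_zero, zero_add] at h4
    rwa [sin_arcsin (by linarith) hv1] at h4
  have h5 : arcsin (t * v) ≤ arcsin (sin (t * arcsin v)) := monotone_arcsin h3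
  rwa [arcsin_sin (by nlinarith [Real.pi_pos]) (by nlinarith [Real.pi_pos])] at h5

lemma le_arcsin {v : ℝ} (hv0 : 0 ≤ v) (hv1 : v ≤ 1) : v ≤ arcsin v := by
  have h := sin_le (arcsin_nonneg.2 hv0)
  rwa [sin_arcsin (by linarith) hv1] at h

lemma arcsin_le_of {v θ : ℝ} (h0 : 0 < θ) (h1 : θ ≤ 1) (h : v ≤ θ - θ ^ 3 / 6) : arcsin v ≤ θ := by
  have h2 := sin_gt_sub_cube h0
  have h3 : arcsin v ≤ arcsin (sin θ) := monotone_arcsin (by linarith)
  rwa [arcsin_sin (by linarith [Real.pi_pos]) (by linarith [Real.pi_gt_three])] at h3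

/-- The piece meets the open disc of radius `ρ`. -/
def Meets (A : ℝ → ℝ) (ρ : ℝ) : Prop := ∃ s, 0 < s ∧ s < ρ ∧ s < 1 ∧ 0 < A s

lemma Meets.mono {A : ℝ → ℝ} {ρ ρ' : ℝ} (h : Meets A ρ) (hle : ρ ≤ ρ') : Meets A ρ' := by
  obtain ⟨s, h1, h2, h3, h4⟩ := h
  exact ⟨s, h1, by linarith, h3, h4⟩

variable {A : ℝ → ℝ} {P q α : ℝ}

lemma Pc.P_lt (h : Pc A P q α) {ρ : ℝ} (hm : Meets A ρ) : P < ρ := by
  obtain ⟨s, h1, h2, h3, h4⟩ := hm
  have h5 := h.up1 s h1 h3
  have h6 : arcsin (P / s) < π / 2 := by linarith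
  have h7 : P / s < 1 := by
    by_contra hcon
    push Not at hcon
    rw [arcsin_of_one_le hcon] at h6
    exact lt_irrefl _ h6
  rw [div_lt_one h1] at h7
  linarith

lemma Pc.deficit (h : Pc A P q α) {ρ s : ℝ} (hm : Meets A ρ) (hs : 0 < s) (hρ : ρ / s ≤ 1 / 2) :
    arcsin (P / s) - arcsin (q / s) ≤ 1.245 * (ρ / s) := by
  have hpi1 := Real.pi_gt_d2
  have hpi2 := Real.pi_lt_d2
  norm_num at hpi1 hpi2
  have hPρ := h.P_lt hm
  have hP0 := h.P_nonneg
  obtain ⟨s', h1, h2, h3, h4⟩ := hm
  have hρ0 : 0 < ρ := by linarith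
  have hx0 : 0 < ρ / s := by positivity
  rcases le_or_gt 0 q with hq | hq
  · have e1 : 0 ≤ arcsin (q / s) := arcsin_nonneg.2 (by positivity)
    have e2 : arcsin (P / s) ≤ arcsin (ρ / s) := monotone_arcsin (by gcongr)
    have e3 : arcsin (ρ / s) ≤ (2 * (ρ / s)) * arcsin (1 / 2) := by
      have := arcsin_mul_le (v := 1 / 2) (t := 2 * (ρ / s)) (by norm_num) (by norm_num)
        (by positivity) (by linarith)
      have e : 2 * (ρ / s) * (1 / 2) = ρ / s := by ring
      rwa [e] at this
    have e4 : arcsin (1 / 2) = π / 6 := by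
      rw [← sin_pi_div_six, arcsin_sin (by linarith) (by linarith)]
    rw [e4] at e3
    norm_num
    nlinarith
  · have hα2 := h.α2
    have hα1 := h.α1
    norm_num at hα1 hα2
    have e0 : arcsin (q / s') ≤ α := by
      have : arcsin (q / s') ≤ 0 := arcsin_nonpos.2 (div_nonpos_of_nonpos_of_nonneg hq.le h1.le)
      linarith
    have e1 := h.up2 s' h1 h3 e0
    have e2 : 0 < α + arcsin (q / s') - arcsin (P / s') := by
      by_contra hcon
      push Not at hcon
      have : max 0 (min (π - 2 * arcsin (P / s')) (α + arcsin (q / s') - arcsin (P / s'))) ≤ 0 :=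
        max_le le_rfl ((min_le_right _ _).trans hcon)
      linarith
    have e3 : arcsin (q / s') = -arcsin (-q / s') := by rw [neg_div, arcsin_neg, neg_neg]
    have e3' : arcsin (q / s) = -arcsin (-q / s) := by rw [neg_div, arcsin_neg, neg_neg]
    have e4 : 0 ≤ arcsin (P / s') := arcsin_nonneg.2 (by positivity)
    have e5 : 0 ≤ arcsin (-q / s') := arcsin_nonneg.2 (div_nonneg (by linarith) h1.le)
    have f1 : P / s' ≤ 1 := by
      by_contra hcon
      push Not at hcon
      rw [arcsin_of_one_le hcon.le] at e2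
      linarith
    have f2 : -q / s' ≤ 1 := by
      by_contra hcon
      push Not at hcon
      rw [e3, arcsin_of_one_le hcon.le] at e2
      linarith
    have ht1 : s' / s ≤ 1 := by
      rw [div_le_one hs]
      have : ρ ≤ 1 / 2 * s := by rwa [div_le_iff₀ hs] at hρ
      linarith
    have g1 : arcsin (P / s) ≤ s' / s * arcsin (P / s') := by
      have := arcsin_mul_le (v := P / s') (t := s' / s) (by positivity) f1 (by positivity) ht1
      have e : s' / s * (P / s') = P / s := by field_simp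
      rwa [e] at this
    have g2 : arcsin (-q / s) ≤ s' / s * arcsin (-q / s') := by
      have := arcsin_mul_le (v := -q / s') (t := s' / s) (div_nonneg (by linarith) h1.le) f2
        (by positivity) ht1
      have e : s' / s * (-q / s') = -q / s := by field_simp
      rwa [e] at this
    have g3 : s' / s ≤ ρ / s := by gcongr
    have g4 : 0 < s' / s := by positivity
    rw [e3']
    norm_num
    nlinarith

lemma Pc.lower (h : Pc A P q α) {ρ s : ℝ} (hm : Meets A ρ) (hs : 0 < s) (hs1 : s < 1)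
    (hρ : ρ / s ≤ 1 / 2) : 1.21 - 1.245 * (ρ / s) ≤ A s := by
  have hpi1 := Real.pi_gt_d2
  have hpi2 := Real.pi_lt_d2
  norm_num at hpi1 hpi2
  have hPρ := h.P_lt hm
  have hα1 := h.α1
  have hP0 := h.P_nonneg
  have hx0 : 0 ≤ ρ / s := by
    have : 0 ≤ ρ := by linarith
    positivity
  refine le_trans (le_min ?_ ?_) (h.lo s hs hs1)
  · have e2 : arcsin (P / s) ≤ arcsin (1 / 2) := monotone_arcsin (by
      have : P / s ≤ ρ / s := by gcongr
      linarith)
    have e4 : arcsin (1 / 2) = π / 6 := by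
      rw [← sin_pi_div_six, arcsin_sin (by linarith) (by linarith)]
    rw [e4] at e2
    norm_num
    nlinarith
  · have := h.deficit hm hs hρ
    linarith

/-- The basic inequality between the radii `s` and `s / 2`. -/
lemma Pc.star (h : Pc A P q α) {ρ s x y : ℝ} (hm : Meets A ρ) (hs : 0 < s) (hs1 : s < 1)
    (hρ : ρ ≤ x * s) (hx0 : 0 < x) (hx : x ≤ 0.152) (hy : arcsin (2 * x) ≤ y) (hy1 : y ≤ 0.31)
    (hq : q ≤ s / 2) :
    A s ≤ α / 2 + A (s / 2) / 2 + (y - 2 * x) := by
  have hpi1 := Real.pi_gt_d2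
  have hpi2 := Real.pi_lt_d2
  norm_num at hpi1 hpi2 hx hy1
  have hPρ := h.P_lt hm
  have hα1 := h.α1
  have hα2 := h.α2
  norm_num at hα1 hα2
  have hP0 := h.P_nonneg
  have hρs : ρ / s ≤ x := by rwa [div_le_iff₀ hs]
  have hs2 : 0 < s / 2 := by linarith
  have hs21 : s / 2 < 1 := by linarith
  -- error terms
  have herr : ∀ v, 0 ≤ v → v ≤ x → arcsin (2 * v) / 2 - arcsin v ≤ (y - 2 * x) / 2 := by
    intro v hv0 hvx
    have h1 : arcsin (2 * v) ≤ v / x * arcsin (2 * x) := by
      have := arcsin_mul_le (v := 2 * x) (t := v / x) (by linarith) (by linarith) (by positivity)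
        (by rw [div_le_one hx0]; exact hvx)
      have e : v / x * (2 * x) = 2 * v := by field_simp
      rwa [e] at this
    have h2 : v ≤ arcsin v := le_arcsin hv0 (by linarith)
    have h3 : v / x * arcsin (2 * x) ≤ v / x * y := by gcongr
    have h4 : v = v / x * x := by field_simp
    have h5 : v / x ≤ 1 := by rw [div_le_one hx0]; exact hvx
    have h6 : 0 ≤ y - 2 * x := by
      have := le_arcsin (v := 2 * x) (by linarith) (by linarith)
      linarith
    nlinarith
  have hPs : P / s ≤ x := by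
    have : P / s ≤ ρ / s := by gcongr
    linarith
  have hPs0 : 0 ≤ P / s := by positivity
  have eP := herr (P / s) hPs0 hPs
  have e2P : 2 * (P / s) = P / (s / 2) := by field_simp
  have e2q : 2 * (q / s) = q / (s / 2) := by field_simp
  rw [e2P] at eP
  -- `Q(s) ≤ Q(s/2)/2 + err`
  have eQ : arcsin (q / s) ≤ arcsin (q / (s / 2)) / 2 + (y - 2 * x) / 2 := by
    have h6 : 0 ≤ y - 2 * x := by
      have := le_arcsin (v := 2 * x) (by linarith) (by linarith)
      linarith
    rcases le_or_gt 0 q with hq0 | hq0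
    · have h1 := arcsin_mul_le (v := q / (s / 2)) (t := 1 / 2) (by positivity)
        (by rw [div_le_one hs2]; exact hq) (by norm_num) (by norm_num)
      have e : 1 / 2 * (q / (s / 2)) = q / s := by field_simp
      rw [e] at h1
      linarith
    · have h1 : -q / s ≤ x := by
        obtain ⟨s', g1, g2, g3, g4⟩ := hm
        have e0 : arcsin (q / s') ≤ α := by
          have : arcsin (q / s') ≤ 0 := arcsin_nonpos.2 (div_nonpos_of_nonpos_of_nonneg hq0.le g1.le)
          linarith
        have e1 := h.up2 s' g1 g3 e0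
        have e2 : 0 < α + arcsin (q / s') - arcsin (P / s') := by
          by_contra hcon
          push Not at hcon
          have : max 0 (min (π - 2 * arcsin (P / s')) (α + arcsin (q / s') - arcsin (P / s'))) ≤ 0 :=
            max_le le_rfl ((min_le_right _ _).trans hcon)
          linarith
        have e3 : arcsin (q / s') = -arcsin (-q / s') := by rw [neg_div, arcsin_neg, neg_neg]
        have e4 : 0 ≤ arcsin (P / s') := arcsin_nonneg.2 (by positivity)
        have f2 : -q / s' ≤ 1 := by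
          by_contra hcon
          push Not at hcon
          rw [e3, arcsin_of_one_le hcon.le] at e2
          linarith
        rw [div_le_one g1] at f2
        calc -q / s ≤ ρ / s := by gcongr; linarith
          _ ≤ x := hρs
      have h2 := herr (-q / s) (div_nonneg (by linarith) hs.le) h1
      have e2 : 2 * (-q / s) = -(q / (s / 2)) := by field_simp
      have e5 : arcsin (-q / s) = -arcsin (q / s) := by rw [neg_div, arcsin_neg]
      rw [e2, arcsin_neg, e5] at h2
      linarith
  have hQα : arcsin (q / s) ≤ α := by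
    have h1 : q / s ≤ 1 / 2 := by rw [div_le_iff₀ hs]; linarith
    have h2 : arcsin (q / s) ≤ arcsin (1 / 2) := monotone_arcsin h1
    have e4 : arcsin (1 / 2) = π / 6 := by
      rw [← sin_pi_div_six, arcsin_sin (by linarith) (by linarith)]
    linarith
  have hup := h.up2 s hs hs1 hQα
  have hdef := h.deficit hm hs (by linarith : ρ / s ≤ 1 / 2)
  norm_num at hdef
  have hpos : 0 ≤ α + arcsin (q / s) - arcsin (P / s) := by
    have : 249 / 200 * (ρ / s) ≤ 249 / 200 * x := by gcongr
    linarith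
  have hA : A s ≤ α + arcsin (q / s) - arcsin (P / s) :=
    hup.trans (max_le hpos (min_le_right _ _))
  have hlo := h.lo (s / 2) hs2 hs21
  rcases min_le_iff.1 hlo with hl | hl
  · -- case `π - 2 P(s/2) ≤ A(s/2)`
    have h1 : arcsin (P / (s / 2)) ≤ y := by
      rw [← e2P]
      exact (monotone_arcsin (by linarith)).trans hy
    have h2 : arcsin (q / (s / 2)) ≤ π / 2 := arcsin_le_pi_div_two _
    linarith
  · linarith

end Pool.Agent.TetraPack
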