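import Pool.Agent.TetraPack.Chain

/-!
# The planar lemma
-/

namespace Pool.Agent.TetraPack

open MeasureTheory Set Real
open scoped ENNReal

/-- Admissible pieces: nothing, a half plane not containing `0`, or a wedge not containing `0` whose
angle is between `1.21` and `1.245`. -/
def IsPiece (W : Set (ℝ × ℝ)) : Prop :=
  W = ∅ ∨ (∃ (a : ℝ × ℝ) (p : ℝ), a.1 ^ 2 + a.2 ^ 2 = 1 ∧ p ≤ 0 ∧ W = hp a p) ∨
    ∃ (a b : ℝ × ℝ) (p q α : ℝ), a.1 ^ 2 + a.2 ^ 2 = 1 ∧ b.1 ^ 2 + b.2 ^ 2 = 1 ∧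
      a.1 * b.1 + a.2 * b.2 = -cos α ∧ 1.21 ≤ α ∧ α ≤ 1.245 ∧ p ≤ 0 ∧ W = hp a p ∩ hp b q

lemma pc_empty : Pc (arc (∅ : Set (ℝ × ℝ))) 1 0 1.22 := by
  have h0 : ∀ s, arc (∅ : Set (ℝ × ℝ)) s = 0 := by
    intro s; simp [arc, arcSet]
  have h1 : ∀ s : ℝ, 0 < s → s < 1 → arcsin (1 / s) = π / 2 := by
    intro s hs hs1
    exact arcsin_of_one_le (by rw [le_div_iff₀ hs]; linarith)
  refine ⟨by norm_num, by norm_num, by norm_num, ?_, ?_, fun s => (h0 s).ge, ?_, ?_⟩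
  · intro s hs hs1; rw [h0, h1 s hs hs1]; linarith
  · intro s hs hs1; rw [h0, h1 s hs hs1]; exact (min_le_left _ _).trans (by linarith)
  · intro s hs hs1 _; rw [h0]; exact le_max_left _ _
  · intro s hs hs1 h; linarith

lemma IsPiece.exists_pc {W : Set (ℝ × ℝ)} (h : IsPiece W) : ∃ P q α, Pc (arc W) P q α := by
  rcases h with rfl | ⟨a, p, ha, hp0, rfl⟩ | ⟨a, b, p, q, α, ha, hb, hab, h1, h2, hp0, rfl⟩
  · exact ⟨_, _, _, pc_empty⟩
  · exact ⟨_, _, _, pc_hp ha hp0⟩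
  · exact ⟨_, _, _, pc_wedge ha hb hab h1 h2 hp0⟩

lemma IsPiece.measurableSet {W : Set (ℝ × ℝ)} (h : IsPiece W) : MeasurableSet W := by
  rcases h with rfl | ⟨a, p, ha, hp0, rfl⟩ | ⟨a, b, p, q, α, ha, hb, hab, h1, h2, hp0, rfl⟩
  · exact MeasurableSet.empty
  · exact measurableSet_hp _ _
  · exact (measurableSet_hp _ _).inter (measurableSet_hp _ _)

lemma arccos_third_bounds : 1.21 ≤ arccos (1 / 3) ∧ arccos (1 / 3) ≤ 1.245 := by
  have hpi1 := Real.pi_gt_d6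
  have hpi2 := Real.pi_lt_d6
  have hg := gg_bounds
  unfold gg at hg
  norm_num at hpi1 hpi2 hg ⊢
  constructor <;> linarith

theorem arc_G0 {a b : ℝ × ℝ} (ha : a.1 ^ 2 + a.2 ^ 2 = 1) (hb : b.1 ^ 2 + b.2 ^ 2 = 1)
    (hab : a.1 * b.1 + a.2 * b.2 = -(1 / 3)) {s : ℝ} (hs : 0 < s) (hs1 : s < 1) :
    arc (hp a 0 ∩ hp b 0) s = arccos (1 / 3) := by
  have hb' := arccos_third_bounds
  have hpi := Real.pi_gt_three
  have h := pc_wedge ha hb (α := arccos (1 / 3)) (p := 0) (q := 0)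
    (by rw [cos_arccos (by norm_num) (by norm_num)]; exact hab) hb'.1 hb'.2 le_rfl
  norm_num at hb'
  apply le_antisymm
  · have := h.up2 s hs hs1 (by simp; linarith [hb'.1])
    refine this.trans ?_
    simp only [neg_zero, zero_div, arcsin_zero, mul_zero, sub_zero, add_zero]
    rw [min_eq_right (by linarith), max_eq_right (by linarith)]
  · have := h.lo s hs hs1
    simp only [neg_zero, zero_div, arcsin_zero, mul_zero, sub_zero, add_zero] at this
    rwa [min_eq_right (by linarith)] at this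

/-- **Planar lemma.** -/
theorem planar {ι : Type*} (F : Finset ι) (W : ι → Set (ℝ × ℝ)) (hW : ∀ i ∈ F, IsPiece (W i))
    {a b : ℝ × ℝ} (ha : a.1 ^ 2 + a.2 ^ 2 = 1) (hb : b.1 ^ 2 + b.2 ^ 2 = 1)
    (hab : a.1 * b.1 + a.2 * b.2 = -(1 / 3))
    (hd : ∀ i ∈ F, ∀ j ∈ F, i ≠ j → Disjoint (W i ∩ disc) (W j ∩ disc))
    (hd0 : ∀ i ∈ F, Disjoint (W i ∩ disc) (hp a 0 ∩ hp b 0)) :
    ENNReal.ofReal (3.2 / 10 ^ 8) ≤ volume (disc \ ((hp a 0 ∩ hp b 0) ∪ ⋃ i ∈ F, W i)) := by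
  classical
  have hex : ∀ i : ι, ∃ P q α, i ∈ F → Pc (arc (W i)) P q α := by
    intro i
    by_cases hi : i ∈ F
    · obtain ⟨P, q, α, h⟩ := (hW i hi).exists_pc
      exact ⟨P, q, α, fun _ => h⟩
    · exact ⟨0, 0, 0, fun h => absurd h hi⟩
  choose P q α hPc using hex
  have hin : ∀ s φ : ℝ, 0 < s → s < 1 → (s * cos φ, s * sin φ) ∈ disc := by
    intro s φ hs hs1
    change (s * cos φ) ^ 2 + (s * sin φ) ^ 2 < 1
    have h8 : (s * cos φ) ^ 2 + (s * sin φ) ^ 2 = s ^ 2 * (sin φ ^ 2 + cos φ ^ 2) := by ring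
    rw [h8, sin_sq_add_cos_sq]
    nlinarith
  have hsum : ∀ s, 0 < s → s < 1 → ∑ i ∈ F, arc (W i) s ≤ gg := by
    intro s hs hs1
    have h0 := arc_G0 ha hb hab hs hs1
    have hdisj : Set.PairwiseDisjoint (↑F : Set ι) (fun i => arcSet (W i) s) := by
      intro i hi j hj hij
      rw [Function.onFun, Set.disjoint_left]
      rintro φ ⟨_, h1⟩ ⟨_, h2⟩
      exact Set.disjoint_left.1 (hd i hi j hj hij) ⟨h1, hin s φ hs hs1⟩ ⟨h2, hin s φ hs hs1⟩
    have hU := measure_biUnion_finset (μ := volume) hdisj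
      (fun i hi => measurableSet_arcSet (hW i hi).measurableSet s)
    have hdisj2 : Disjoint (⋃ i ∈ F, arcSet (W i) s) (arcSet (hp a 0 ∩ hp b 0) s) := by
      rw [Set.disjoint_left]
      intro φ h1 h2
      rw [Set.mem_iUnion₂] at h1
      obtain ⟨i, hi, h1⟩ := h1
      exact Set.disjoint_left.1 (hd0 i hi) ⟨h1.2, hin s φ hs hs1⟩ h2.2
    have hmG : MeasurableSet (arcSet (hp a 0 ∩ hp b 0) s) :=
      measurableSet_arcSet ((measurableSet_hp _ _).inter (measurableSet_hp _ _)) s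
    have h3 : volume (⋃ i ∈ F, arcSet (W i) s) + volume (arcSet (hp a 0 ∩ hp b 0) s) ≤
        ENNReal.ofReal (2 * π) := by
      rw [← measure_union hdisj2 hmG]
      calc _ ≤ volume (Ioo (-π) π) := by
            refine measure_mono ?_
            refine Set.union_subset (Set.iUnion₂_subset fun i _ φ h => h.1) fun φ h => h.1
        _ = ENNReal.ofReal (2 * π) := by rw [Real.volume_Ioo]; congr 1; ring
    rw [hU, ← ofReal_arc (hp a 0 ∩ hp b 0) s, h0] at h3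
    have h4 : ∑ i ∈ F, volume (arcSet (W i) s) = ENNReal.ofReal (∑ i ∈ F, arc (W i) s) := by
      rw [ENNReal.ofReal_sum_of_nonneg (fun i _ => arc_nonneg _ _)]
      exact Finset.sum_congr rfl fun i _ => (ofReal_arc _ _).symm
    rw [h4, ← ENNReal.ofReal_add (Finset.sum_nonneg fun i _ => arc_nonneg _ _)
      (arccos_nonneg _), ENNReal.ofReal_le_ofReal_iff (by positivity)] at h3
    unfold gg
    linarith
  obtain ⟨s₁, s₂, l, h1, h2, h3, h4, h5, h6⟩ := chain F (fun i hi => hPc i hi) hsum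
  have hS : MeasurableSet ((hp a 0 ∩ hp b 0) ∪ ⋃ i ∈ F, W i) :=
    ((measurableSet_hp _ _).inter (measurableSet_hp _ _)).union
      (Finset.measurableSet_biUnion F fun i hi => (hW i hi).measurableSet)
  refine le_trans (ENNReal.ofReal_le_ofReal h5) (area_ge hS h1 h2 h3 h4 ?_)
  intro s hs
  have hs0 : 0 < s := lt_of_le_of_lt h1 hs.1
  have hs1 : s < 1 := lt_of_lt_of_le hs.2 h3
  have h7 := h6 s hs
  have h8 : volume (arcSet ((hp a 0 ∩ hp b 0) ∪ ⋃ i ∈ F, W i) s) ≤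
      ENNReal.ofReal (arccos (1 / 3) + ∑ i ∈ F, arc (W i) s) := by
    rw [ENNReal.ofReal_add (arccos_nonneg _) (Finset.sum_nonneg fun i _ => arc_nonneg _ _),
      ENNReal.ofReal_sum_of_nonneg (fun i _ => arc_nonneg _ _), ← arc_G0 ha hb hab hs0 hs1,
      ofReal_arc]
    have : arcSet ((hp a 0 ∩ hp b 0) ∪ ⋃ i ∈ F, W i) s ⊆
        arcSet (hp a 0 ∩ hp b 0) s ∪ ⋃ i ∈ F, arcSet (W i) s := by
      rintro φ ⟨h9, h10 | h10⟩
      · exact Or.inl ⟨h9, h10⟩
      · rw [Set.mem_iUnion₂] at h10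
        obtain ⟨i, hi, h10⟩ := h10
        exact Or.inr (Set.mem_iUnion₂.2 ⟨i, hi, h9, h10⟩)
    refine (measure_mono this).trans ((measure_union_le _ _).trans ?_)
    gcongr
    refine (measure_biUnion_finset_le _ _).trans ?_
    exact Finset.sum_le_sum fun i _ => (ofReal_arc _ _).ge
  have h9 := ENNReal.toReal_mono ENNReal.ofReal_ne_top h8
  rw [ENNReal.toReal_ofReal (add_nonneg (arccos_nonneg _)
    (Finset.sum_nonneg fun i _ => arc_nonneg _ _))] at h9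
  change arc _ s ≤ _ at h9
  unfold gg at h7
  linarith

end Pool.Agent.TetraPack
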