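import Mathlib

/-!
# Regular tetrahedra of edge length one: normals and half space description
-/

namespace Pool.Agent.TetraPack

open MeasureTheory Set Real
open scoped ENNReal RealInnerProductSpace

/-- Euclidean three-space. -/
abbrev E3 := EuclideanSpace ℝ (Fin 3)

/-- `K` is a regular tetrahedron with edges of length one. -/
def IsRegTet (K : Set E3) : Prop :=
  ∃ v : Fin 4 → E3, (∀ i j, i ≠ j → dist (v i) (v j) = 1) ∧ K = convexHull ℝ (range v)

/-- Outer unit normals `n`, support constants `c`, vertices `v` of a regular tetrahedron `K`. -/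
structure Tet (K : Set E3) (v n : Fin 4 → E3) (c : Fin 4 → ℝ) : Prop where
  hv : ∀ i j, i ≠ j → dist (v i) (v j) = 1
  hK : K = convexHull ℝ (range v)
  nn : ∀ j, ‖n j‖ = 1
  nk : ∀ j k, j ≠ k → ⟪n j, n k⟫ = -(1 / 3)
  sum0 : ∑ j, n j = 0
  frame : ∀ u : E3, ∑ j, ⟪n j, u⟫ ^ 2 = 4 / 3 * ‖u‖ ^ 2
  off : ∀ j k, j ≠ k → ⟪n j, v k⟫ = c j
  opp : ∀ j, ⟪n j, v j⟫ = c j - √(2 / 3)
  half : K = {x | ∀ j, ⟪n j, x⟫ ≤ c j}
  int : interior K = {x | ∀ j, ⟪n j, x⟫ < c j}

lemma inner_of_dist {v : Fin 4 → E3} (hv : ∀ i j, i ≠ j → dist (v i) (v j) = 1) :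
    ∀ i j k : Fin 4, i ≠ j → i ≠ k → j ≠ k → ⟪v j - v i, v k - v i⟫ = 1 / 2 := by
  intro i j k hij hik hjk
  have h1 : ‖v j - v i‖ = 1 := by rw [← dist_eq_norm]; exact hv j i hij.symm
  have h2 : ‖v k - v i‖ = 1 := by rw [← dist_eq_norm]; exact hv k i hik.symm
  have h3 : ‖v j - v k‖ = 1 := by rw [← dist_eq_norm]; exact hv j k hjk
  have h4 : v j - v k = (v j - v i) - (v k - v i) := by abel
  have h5 := @norm_sub_sq_real E3 _ _ (v j - v i) (v k - v i)
  rw [← h4, h1, h2, h3] at h5
  linarith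

/-- The centroid vectors `w j = v j - (v 0 + v 1 + v 2 + v 3)/4`. -/
noncomputable def cen (v : Fin 4 → E3) : E3 := (1 / 4 : ℝ) • ∑ j, v j

lemma inner_cen {v : Fin 4 → E3} (hv : ∀ i j, i ≠ j → dist (v i) (v j) = 1) (j k : Fin 4) :
    ⟪v j - cen v, v k - cen v⟫ = if j = k then 3 / 8 else -(1 / 8) := by
  -- everything in terms of `v i - v 0`
  have hn : ∀ i j, i ≠ j → ⟪v i - v j, v i - v j⟫ = (1 : ℝ) := by
    intro i j hij
    rw [real_inner_self_eq_norm_sq, ← dist_eq_norm, hv i j hij]; norm_num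
  have a1 := hn 1 0 (by decide)
  have a2 := hn 2 0 (by decide)
  have a3 := hn 3 0 (by decide)
  have b12 := inner_of_dist hv 0 1 2 (by decide) (by decide) (by decide)
  have b13 := inner_of_dist hv 0 1 3 (by decide) (by decide) (by decide)
  have b23 := inner_of_dist hv 0 2 3 (by decide) (by decide) (by decide)
  set p := v 1 - v 0 with hp
  set q := v 2 - v 0 with hq
  set r := v 3 - v 0 with hr
  have e1 : v 1 = v 0 + p := by rw [hp]; abel
  have e2 : v 2 = v 0 + q := by rw [hq]; abel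
  have e3 : v 3 = v 0 + r := by rw [hr]; abel
  have ec : cen v = v 0 + (1 / 4 : ℝ) • (p + q + r) := by
    unfold cen
    rw [Fin.sum_univ_four, e1, e2, e3]
    module
  have c0 : v 0 - cen v = -(1 / 4 : ℝ) • (p + q + r) := by rw [ec]; module
  have c1 : v 1 - cen v = p - (1 / 4 : ℝ) • (p + q + r) := by rw [ec, e1]; module
  have c2 : v 2 - cen v = q - (1 / 4 : ℝ) • (p + q + r) := by rw [ec, e2]; module
  have c3 : v 3 - cen v = r - (1 / 4 : ℝ) • (p + q + r) := by rw [ec, e3]; module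
  have b21 : ⟪q, p⟫ = (1 / 2 : ℝ) := by rw [real_inner_comm]; exact b12
  have b31 : ⟪r, p⟫ = (1 / 2 : ℝ) := by rw [real_inner_comm]; exact b13
  have b32 : ⟪r, q⟫ = (1 / 2 : ℝ) := by rw [real_inner_comm]; exact b23
  have key : ∀ j k : Fin 4, j = 0 ∨ j = 1 ∨ j = 2 ∨ j = 3 → k = 0 ∨ k = 1 ∨ k = 2 ∨ k = 3 →
      ⟪v j - cen v, v k - cen v⟫ = if j = k then 3 / 8 else -(1 / 8) := by
    rintro j k (rfl | rfl | rfl | rfl) (rfl | rfl | rfl | rfl) <;>
      simp only [c0, c1, c2, c3, inner_sub_left, inner_sub_right, inner_add_left, inner_add_right,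
        real_inner_smul_left, real_inner_smul_right, a1, a2, a3, b12, b13, b23, b21, b31, b32] <;>
      norm_num <;> decide
  exact key j k (by omega) (by omega)

lemma frame_aux {n : Fin 4 → E3} (nn : ∀ j, ‖n j‖ = 1) (nk : ∀ j k, j ≠ k → ⟪n j, n k⟫ = -(1 / 3 : ℝ))
    (sum0 : ∑ j, n j = 0) (u : E3) : ∑ j, ⟪n j, u⟫ • n j = (4 / 3 : ℝ) • u := by
  set S : E3 →ₗ[ℝ] E3 := ∑ j, ((innerSL ℝ (n j)).toLinearMap).smulRight (n j) with hS
  have hSu : ∀ u, S u = ∑ j, ⟪n j, u⟫ • n j := by
    intro u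
    simp [hS, LinearMap.sum_apply]
  have hself : ∀ j, ⟪n j, n j⟫ = (1 : ℝ) := by
    intro j; rw [real_inner_self_eq_norm_sq, nn]; norm_num
  have n3 : n 3 = -(n 0 + n 1 + n 2) := by
    rw [Fin.sum_univ_four] at sum0
    exact eq_neg_of_add_eq_zero_right sum0
  have hSn : ∀ k, S (n k) = (4 / 3 : ℝ) • n k := by
    intro k
    rw [hSu, Fin.sum_univ_four]
    have key : ∀ k : Fin 4, k = 0 ∨ k = 1 ∨ k = 2 ∨ k = 3 →
        ⟪n 0, n k⟫ • n 0 + ⟪n 1, n k⟫ • n 1 + ⟪n 2, n k⟫ • n 2 + ⟪n 3, n k⟫ • n 3 =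
          (4 / 3 : ℝ) • n k := by
      rintro k (rfl | rfl | rfl | rfl)
      · rw [hself, nk 1 0 (by decide), nk 2 0 (by decide), nk 3 0 (by decide), n3]; module
      · rw [hself, nk 0 1 (by decide), nk 2 1 (by decide), nk 3 1 (by decide), n3]; module
      · rw [hself, nk 0 2 (by decide), nk 1 2 (by decide), nk 3 2 (by decide), n3]; module
      · rw [hself, nk 0 3 (by decide), nk 1 3 (by decide), nk 2 3 (by decide), n3]; module
    exact key k (by omega)
  have hli : LinearIndependent ℝ ![n 0, n 1, n 2] := by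
    rw [Fintype.linearIndependent_iff]
    intro g hg
    rw [Fin.sum_univ_three] at hg
    simp only [Matrix.cons_val_zero, Matrix.cons_val_one, Matrix.cons_val] at hg
    have e0 := congrArg (fun x => ⟪n 0, x⟫) hg
    have e1 := congrArg (fun x => ⟪n 1, x⟫) hg
    have e2 := congrArg (fun x => ⟪n 2, x⟫) hg
    simp only [inner_add_right, real_inner_smul_right, hself, inner_zero_right,
      nk 0 1 (by decide), nk 0 2 (by decide), nk 1 0 (by decide), nk 1 2 (by decide),
      nk 2 0 (by decide), nk 2 1 (by decide)] at e0 e1 e2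
    have key : ∀ i : Fin 3, i = 0 ∨ i = 1 ∨ i = 2 → g i = 0 := by
      rintro i (rfl | rfl | rfl) <;> linarith
    intro i
    exact key i (by omega)
  have hspan : Submodule.span ℝ (range ![n 0, n 1, n 2]) = ⊤ :=
    hli.span_eq_top_of_card_eq_finrank (by simp)
  have hE : S = (4 / 3 : ℝ) • LinearMap.id := by
    refine LinearMap.ext_on hspan ?_
    rintro _ ⟨i, rfl⟩
    have key : ∀ i : Fin 3, i = 0 ∨ i = 1 ∨ i = 2 →
        S (![n 0, n 1, n 2] i) = ((4 / 3 : ℝ) • (LinearMap.id : E3 →ₗ[ℝ] E3)) (![n 0, n 1, n 2] i) := by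
      rintro i (rfl | rfl | rfl)
      · simpa using hSn 0
      · simpa using hSn 1
      · simpa using hSn 2
    exact key i (by omega)
  rw [← hSu, hE]
  simp

lemma interior_halfspace {n : E3} (hn : n ≠ 0) (c : ℝ) :
    interior {x : E3 | ⟪n, x⟫ ≤ c} = {x | ⟪n, x⟫ < c} := by
  have hopen : IsOpenMap (innerSL ℝ n) := by
    apply ContinuousLinearMap.isOpenMap
    intro t
    refine ⟨(t / ‖n‖ ^ 2) • n, ?_⟩
    rw [innerSL_apply_apply, real_inner_smul_right, real_inner_self_eq_norm_sq]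
    have : ‖n‖ ≠ 0 := norm_ne_zero_iff.2 hn
    field_simp
  have h := hopen.preimage_interior_eq_interior_preimage (innerSL ℝ n).continuous (Iic c)
  rw [interior_Iic] at h
  exact h.symm

theorem exists_tet {K : Set E3} (hK : IsRegTet K) : ∃ v n c, Tet K v n c := by
  obtain ⟨v, hv, hKv⟩ := hK
  set a : ℝ := √(8 / 3) with ha
  have ha2 : a ^ 2 = 8 / 3 := Real.sq_sqrt (by norm_num)
  have ha0 : 0 ≤ a := Real.sqrt_nonneg _
  have hh : √(2 / 3 : ℝ) = a / 2 := by
    rw [ha, show (8 / 3 : ℝ) = 2 ^ 2 * (2 / 3) by norm_num, Real.sqrt_mul (by norm_num),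
      Real.sqrt_sq (by norm_num)]
    ring
  set w : Fin 4 → E3 := fun j => v j - cen v with hw
  have hww : ∀ j k, ⟪w j, w k⟫ = if j = k then (3 / 8 : ℝ) else -(1 / 8) := inner_cen hv
  set n : Fin 4 → E3 := fun j => -(a • w j) with hn
  set c : Fin 4 → ℝ := fun j => ⟪n j, cen v⟫ + a / 8 with hc
  have hsumw : ∑ j, w j = 0 := by
    simp only [hw, Finset.sum_sub_distrib, Finset.sum_const, Finset.card_univ, Fintype.card_fin]
    unfold cen
    rw [← Nat.cast_smul_eq_nsmul ℝ, smul_smul]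
    norm_num
  have hnn : ∀ j k, ⟪n j, n k⟫ = if j = k then (1 : ℝ) else -(1 / 3) := by
    intro j k
    simp only [hn, inner_neg_left, inner_neg_right, real_inner_smul_left, real_inner_smul_right,
      hww]
    split_ifs <;> nlinarith [ha2]
  have hnw : ∀ j k, ⟪n j, w k⟫ = if j = k then -(3 / 8 * a) else a / 8 := by
    intro j k
    simp only [hn, inner_neg_left, real_inner_smul_left, hww]
    split_ifs <;> ring
  have nn : ∀ j, ‖n j‖ = 1 := by
    intro j
    have h1 := hnn j j
    rw [if_pos rfl, real_inner_self_eq_norm_sq] at h1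
    have h2 := norm_nonneg (n j)
    nlinarith
  have nk : ∀ j k, j ≠ k → ⟪n j, n k⟫ = -(1 / 3 : ℝ) := by
    intro j k hjk; rw [hnn, if_neg hjk]
  have sum0 : ∑ j, n j = 0 := by
    simp only [hn, Finset.sum_neg_distrib, ← Finset.smul_sum, hsumw, smul_zero, neg_zero]
  have hfr := frame_aux nn nk sum0
  have frame : ∀ u : E3, ∑ j, ⟪n j, u⟫ ^ 2 = 4 / 3 * ‖u‖ ^ 2 := by
    intro u
    have h1 := congrArg (fun x => ⟪u, x⟫) (hfr u)
    simp only [inner_sum, real_inner_smul_right, real_inner_self_eq_norm_sq] at h1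
    rw [← h1]
    refine Finset.sum_congr rfl fun j _ => ?_
    rw [real_inner_comm u (n j)]; ring
  have hvw : ∀ k, v k = cen v + w k := by intro k; simp [hw]
  have off : ∀ j k, j ≠ k → ⟪n j, v k⟫ = c j := by
    intro j k hjk
    rw [hvw k, inner_add_right, hnw, if_neg hjk]
  have opp : ∀ j, ⟪n j, v j⟫ = c j - √(2 / 3) := by
    intro j
    rw [hvw j, inner_add_right, hnw, if_pos rfl, hh]
    simp only [hc]
    ring
  have hhpos : 0 < √(2 / 3 : ℝ) := Real.sqrt_pos.2 (by norm_num)
  have half : K = {x | ∀ j, ⟪n j, x⟫ ≤ c j} := by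
    apply Set.Subset.antisymm
    · rw [hKv]
      refine convexHull_min ?_ ?_
      · rintro _ ⟨k, rfl⟩ j
        by_cases hjk : j = k
        · subst hjk; rw [opp]; linarith
        · rw [off j k hjk]
      · have : {x : E3 | ∀ j, ⟪n j, x⟫ ≤ c j} = ⋂ j, {x | ⟪n j, x⟫ ≤ c j} := by
          ext x; simp
        rw [this]
        refine convex_iInter fun j => ?_
        exact convex_halfSpace_le (f := fun x => ⟪n j, x⟫)
          ((innerSL ℝ (n j)).toLinearMap.isLinear) (c j)
    · intro x hx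
      set h := √(2 / 3 : ℝ) with hhdef
      set t : Fin 4 → ℝ := fun j => (c j - ⟪n j, x⟫) / h with ht
      have ht0 : ∀ j, 0 ≤ t j := fun j => div_nonneg (sub_nonneg.2 (hx j)) hhpos.le
      have hsumc : ∑ j, c j = a / 2 := by
        simp only [hc, Finset.sum_add_distrib, ← sum_inner, sum0, inner_zero_left, Finset.sum_const,
          Finset.card_univ, Fintype.card_fin, nsmul_eq_mul]
        push_cast
        ring
      have hsumn : ∑ j, ⟪n j, x⟫ = (0 : ℝ) := by rw [← sum_inner, sum0, inner_zero_left]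
      have ht1 : ∑ j, t j = 1 := by
        simp only [ht, ← Finset.sum_div, Finset.sum_sub_distrib, hsumc, hsumn, sub_zero]
        rw [← hh]
        exact div_self hhpos.ne'
      have hx' : x = ∑ j, t j • v j := by
        rw [← sub_eq_zero]
        set d := x - ∑ j, t j • v j with hd
        have hd0 : ∀ k, ⟪n k, d⟫ = (0 : ℝ) := by
          intro k
          rw [hd, inner_sub_right, inner_sum]
          have e1 : ∀ j, ⟪n k, t j • v j⟫ = t j * c k - (if j = k then t j * h else 0) := by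
            intro j
            rw [real_inner_smul_right]
            by_cases hjk : j = k
            · subst hjk; rw [opp, if_pos rfl]; ring
            · rw [off k j (Ne.symm hjk), if_neg hjk]; ring
          simp only [e1, Finset.sum_sub_distrib, ← Finset.sum_mul, ht1, Finset.sum_ite_eq',
            Finset.mem_univ, if_true]
          simp only [ht]
          rw [div_mul_cancel₀ _ hhpos.ne']
          ring
        have h1 := frame d
        simp only [hd0] at h1
        have h2 : ‖d‖ ^ 2 = 0 := by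
          have : ∑ _j : Fin 4, (0 : ℝ) ^ 2 = 0 := by simp
          rw [this] at h1; linarith
        exact norm_eq_zero.1 (by simpa using h2)
      rw [hKv, hx']
      rw [convexHull_range_eq_exists_affineCombination]
      refine ⟨Finset.univ, t, fun j _ => ht0 j, ht1, ?_⟩
      rw [Finset.affineCombination_eq_linear_combination _ _ _ ht1]
  refine ⟨v, n, c, hv, hKv, nn, nk, sum0, frame, off, opp, half, ?_⟩
  have : K = ⋂ j, {x | ⟪n j, x⟫ ≤ c j} := by rw [half]; ext x; simp
  rw [this, interior_iInter_of_finite]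
  ext x
  simp only [mem_iInter, mem_ofPred_eq]
  refine forall_congr' fun j => ?_
  rw [interior_halfspace (by intro h; have := nn j; rw [h, norm_zero] at this; norm_num at this)]
  rfl

end Pool.Agent.TetraPack
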