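import Pool.Agent.TetraPack.Planar
import Pool.Agent.TetraPack.Tet

/-!
# Sections of tetrahedra near an edge
-/

namespace Pool.Agent.TetraPack

open MeasureTheory Set Real
open scoped ENNReal RealInnerProductSpace

lemma arccos_bounds {w : ℝ} (h1 : 0.3233 ≤ w) (h2 : w ≤ 0.3469) :
    1.21 ≤ arccos w ∧ arccos w ≤ 1.245 := by
  have hpi1 := Real.pi_gt_d6
  have hpi2 := Real.pi_lt_d6
  have h3 : arcsin w ≤ 0.3607 :=
    arcsin_le_of (by norm_num) (by norm_num) (h2.trans (by norm_num))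
  have h4 : 0.3259 ≤ arcsin w := by
    have hs := (abs_le.1 (sin_bound (x := 0.3259) (by rw [abs_of_pos] <;> norm_num))).2
    rw [abs_of_pos (by norm_num : (0 : ℝ) < 0.3259)] at hs
    have h3 : sin 0.3259 ≤ w := by norm_num at hs h1 ⊢; linarith
    have h4 := monotone_arcsin h3
    rwa [arcsin_sin (by norm_num at hpi1 hpi2 ⊢; linarith) (by norm_num at hpi1 hpi2 ⊢; linarith)] at h4
  rw [arccos]
  norm_num at hpi1 hpi2 h3 h4 ⊢
  constructor <;> linarith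

/-- Orthonormal frame `u, f, g` of `E3` together with the induced coordinates. -/
structure Fr (u f g : E3) : Prop where
  par : ∀ x y : E3, ⟪x, y⟫ = ⟪x, u⟫ * ⟪y, u⟫ + ⟪x, f⟫ * ⟪y, f⟫ + ⟪x, g⟫ * ⟪y, g⟫
  mp : ∀ p : E3, MeasurePreserving (fun z : ℝ × (ℝ × ℝ) => p + (z.1 • u + (z.2.1 • f + z.2.2 • g)))
  uu : ‖u‖ = 1
  ff : ‖f‖ = 1
  gg' : ‖g‖ = 1
  uf : ⟪u, f⟫ = 0
  ug : ⟪u, g⟫ = 0
  fg : ⟪f, g⟫ = 0

/-- Three slopes of absolute value at most `1/10` are impossible. -/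
lemma three_small {x : Fin 4 → ℝ} (hs : ∑ j, x j = 0) (hq : ∑ j, x j ^ 2 = 4 / 3) {j k l : Fin 4}
    (hjk : j ≠ k) (hjl : j ≠ l) (hkl : k ≠ l) (h1 : |x j| ≤ 1 / 10) (h2 : |x k| ≤ 1 / 10)
    (h3 : |x l| ≤ 1 / 10) : False := by
  obtain ⟨m, hm⟩ : ∃ m : Fin 4, ∑ i, x i = x j + x k + x l + x m ∧
      ∑ i, x i ^ 2 = x j ^ 2 + x k ^ 2 + x l ^ 2 + x m ^ 2 := by
    have hex : ∀ j k l : Fin 4, ∃ m : Fin 4, m ≠ j ∧ m ≠ k ∧ m ≠ l := by decide
    have huniv : ∀ j k l m : Fin 4, j ≠ k → j ≠ l → k ≠ l → m ≠ j → m ≠ k → m ≠ l →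
        (Finset.univ : Finset (Fin 4)) = {j, k, l, m} := by decide
    obtain ⟨m, hmj, hmk, hml⟩ := hex j k l
    have hu := huniv j k l m hjk hjl hkl hmj hmk hml
    refine ⟨m, ?_, ?_⟩
    · rw [hu, Finset.sum_insert (by simp [hjk, hjl, hmj.symm]),
        Finset.sum_insert (by simp [hkl, hmk.symm]), Finset.sum_insert (by simp [hml.symm]),
        Finset.sum_singleton]
      ring
    · rw [hu, Finset.sum_insert (by simp [hjk, hjl, hmj.symm]),
        Finset.sum_insert (by simp [hkl, hmk.symm]), Finset.sum_insert (by simp [hml.symm]),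
        Finset.sum_singleton]
      ring
  rw [hm.1] at hs
  rw [hm.2] at hq
  have e : x m = -(x j + x k + x l) := by linarith
  rw [e] at hq
  have a1 := abs_le.1 h1
  have a2 := abs_le.1 h2
  have a3 := abs_le.1 h3
  nlinarith [mul_nonneg (sub_nonneg.2 a1.2) (sub_nonneg.2 a1.1), sq_nonneg (x j - x k),
    sq_nonneg (x j - x l), sq_nonneg (x k - x l), mul_nonneg (sub_nonneg.2 a2.2) (sub_nonneg.2 a2.1),
    mul_nonneg (sub_nonneg.2 a3.2) (sub_nonneg.2 a3.1)]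

section

variable {K : Set E3} {v n : Fin 4 → E3} {c : Fin 4 → ℝ} {u f g : E3}

lemma Tet.sumx (T : Tet K v n c) (u : E3) : ∑ j, ⟪n j, u⟫ = (0 : ℝ) := by
  rw [← sum_inner, T.sum0, inner_zero_left]

lemma Tet.mem_iff (T : Tet K v n c) {p0 : E3} {r : ℝ} (y : ℝ × ℝ) :
    p0 + r • (y.1 • f + y.2 • g) ∈ interior K ↔
      ∀ j, (⟪n j, p0⟫ - c j) + r * (⟪n j, f⟫ * y.1 + ⟪n j, g⟫ * y.2) < 0 := by
  rw [T.int]
  simp only [mem_ofPred_eq, inner_add_right, real_inner_smul_right]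
  refine forall_congr' fun j => ?_
  constructor <;> intro h <;> linarith

lemma hp_scale {a b s r ρ : ℝ} (hr : 0 < r) (hρ : 0 < ρ) (y : ℝ × ℝ) :
    y ∈ hp (a / ρ, b / ρ) (-s / (r * ρ)) ↔ s + r * (a * y.1 + b * y.2) < 0 := by
  change a / ρ * y.1 + b / ρ * y.2 < -s / (r * ρ) ↔ _
  rw [lt_div_iff₀ (mul_pos hr hρ)]
  have : (a / ρ * y.1 + b / ρ * y.2) * (r * ρ) = r * (a * y.1 + b * y.2) := by
    field_simp
  rw [this]
  constructor <;> intro h <;> linarith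

theorem section_piece (T : Tet K v n c) (hF : Fr u f g) {p0 : E3} (hp0 : p0 ∉ interior K) {r : ℝ}
    (hr : 0 < r)
    (hgood : ∀ j k, j ≠ k → |⟪n j, p0⟫ - c j| ≤ r → |⟪n k, p0⟫ - c k| ≤ r →
      |⟪n j, u⟫| ≤ 1 / 10 ∧ |⟪n k, u⟫| ≤ 1 / 10) :
    ∃ W, IsPiece W ∧ ∀ y ∈ disc, (p0 + r • (y.1 • f + y.2 • g) ∈ interior K ↔ y ∈ W) := by
  classical
  set s : Fin 4 → ℝ := fun j => ⟪n j, p0⟫ - c j with hs
  set x : Fin 4 → ℝ := fun j => ⟪n j, u⟫ with hx
  have hnorm : ∀ j, ⟪n j, f⟫ ^ 2 + ⟪n j, g⟫ ^ 2 = 1 - x j ^ 2 := by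
    intro j
    have h1 := hF.par (n j) (n j)
    rw [real_inner_self_eq_norm_sq, T.nn] at h1
    simp only [hx]
    linarith
  have hbd : ∀ j, ∀ y ∈ disc, |⟪n j, f⟫ * y.1 + ⟪n j, g⟫ * y.2| < 1 := by
    intro j y hy
    change y.1 ^ 2 + y.2 ^ 2 < 1 at hy
    rw [← sq_lt_one_iff_abs_lt_one]
    have h1 := hnorm j
    have h2 : (⟪n j, f⟫ * y.1 + ⟪n j, g⟫ * y.2) ^ 2 ≤
        (⟪n j, f⟫ ^ 2 + ⟪n j, g⟫ ^ 2) * (y.1 ^ 2 + y.2 ^ 2) := by
      nlinarith [sq_nonneg (⟪n j, f⟫ * y.2 - ⟪n j, g⟫ * y.1)]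
    have h3 : (⟪n j, f⟫ ^ 2 + ⟪n j, g⟫ ^ 2) * (y.1 ^ 2 + y.2 ^ 2) ≤ 1 * (y.1 ^ 2 + y.2 ^ 2) := by
      apply mul_le_mul_of_nonneg_right _ (by positivity)
      rw [h1]; nlinarith [sq_nonneg (x j)]
    linarith
  have hiff : ∀ y : ℝ × ℝ, p0 + r • (y.1 • f + y.2 • g) ∈ interior K ↔
      ∀ j, s j + r * (⟪n j, f⟫ * y.1 + ⟪n j, g⟫ * y.2) < 0 := fun y => T.mem_iff y
  by_cases hout : ∃ j, r < s j
  · obtain ⟨j, hj⟩ := hout
    refine ⟨∅, Or.inl rfl, fun y hy => ?_⟩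
    rw [hiff]
    simp only [mem_empty_iff_false, iff_false]
    intro h
    have h1 := h j
    have h2 := (abs_lt.1 (hbd j y hy)).1
    nlinarith
  push Not at hout
  obtain ⟨j, hj⟩ : ∃ j, 0 ≤ s j := by
    by_contra hno
    push Not at hno
    apply hp0
    rw [T.int]
    intro j
    have := hno j
    simp only [hs] at this
    linarith
  have hact : ∀ k, -r ≤ s k → |⟪n k, p0⟫ - c k| ≤ r := by
    intro k hk
    exact abs_le.2 ⟨hk, hout k⟩
  have hjr : -r ≤ s j := by linarith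
  by_cases hk : ∃ k, k ≠ j ∧ -r ≤ s k
  · obtain ⟨k, hkj, hk⟩ := hk
    obtain ⟨hxj, hxk⟩ := hgood j k hkj.symm (hact j hjr) (hact k hk)
    have hrest : ∀ l, l ≠ j → l ≠ k → s l < -r := by
      intro l hlj hlk
      by_contra hl
      push Not at hl
      have := hgood j l hlj.symm (hact j hjr) (hact l hl)
      exact three_small (T.sumx u) (by rw [T.frame, hF.uu]; norm_num) hkj.symm hlj.symm hlk.symm
        hxj hxk this.2
    -- two active faces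
    have hx2 : ∀ i, |x i| ≤ 1 / 10 → x i ^ 2 ≤ 1 / 100 := by
      intro i hi
      have := abs_le.1 hi
      nlinarith
    set ρj := √(1 - x j ^ 2) with hρj
    set ρk := √(1 - x k ^ 2) with hρk
    have hj2 := hx2 j hxj
    have hk2 := hx2 k hxk
    have hρj0 : 0 < ρj := Real.sqrt_pos.2 (by linarith)
    have hρk0 : 0 < ρk := Real.sqrt_pos.2 (by linarith)
    have hρj2 : ρj ^ 2 = 1 - x j ^ 2 := Real.sq_sqrt (by linarith)
    have hρk2 : ρk ^ 2 = 1 - x k ^ 2 := Real.sq_sqrt (by linarith)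
    set w := (1 / 3 + x j * x k) / (ρj * ρk) with hw
    have hρρ : 0 < ρj * ρk := mul_pos hρj0 hρk0
    have hρρ1 : ρj * ρk ≤ 1 := by
      have h1 : ρj ≤ 1 := by nlinarith [sq_nonneg (x j)]
      have h2 : ρk ≤ 1 := by nlinarith [sq_nonneg (x k)]
      nlinarith
    have hρρ2 : 0.99 ≤ ρj * ρk := by
      have h1 : 0.99 ^ 2 ≤ (ρj * ρk) ^ 2 := by
        rw [mul_pow, hρj2, hρk2]; nlinarith
      exact le_of_sq_le_sq h1 hρρ.le |> fun h => h
    have hxx : |x j * x k| ≤ 1 / 100 := by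
      rw [abs_mul]
      calc |x j| * |x k| ≤ 1 / 10 * (1 / 10) :=
            mul_le_mul hxj hxk (abs_nonneg _) (by norm_num)
        _ = 1 / 100 := by norm_num
    have hxx' := abs_le.1 hxx
    have hw1 : 0.3233 ≤ w := by
      rw [hw, le_div_iff₀ hρρ]; nlinarith
    have hw2 : w ≤ 0.3469 := by
      rw [hw, div_le_iff₀ hρρ]; nlinarith
    have hb := arccos_bounds hw1 hw2
    refine ⟨hp (⟪n j, f⟫ / ρj, ⟪n j, g⟫ / ρj) (-s j / (r * ρj)) ∩
      hp (⟪n k, f⟫ / ρk, ⟪n k, g⟫ / ρk) (-s k / (r * ρk)), ?_, ?_⟩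
    · right; right
      refine ⟨_, _, _, _, arccos w, ?_, ?_, ?_, hb.1, hb.2, ?_, rfl⟩
      · change (⟪n j, f⟫ / ρj) ^ 2 + (⟪n j, g⟫ / ρj) ^ 2 = 1
        rw [div_pow, div_pow, ← add_div, hnorm, ← hρj2]
        exact div_self (by positivity)
      · change (⟪n k, f⟫ / ρk) ^ 2 + (⟪n k, g⟫ / ρk) ^ 2 = 1
        rw [div_pow, div_pow, ← add_div, hnorm, ← hρk2]
        exact div_self (by positivity)
      · rw [cos_arccos (by linarith [show (0 : ℝ) ≤ w from le_trans (by norm_num) hw1])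
          (hw2.trans (by norm_num))]
        have h1 := hF.par (n j) (n k)
        rw [T.nk j k hkj.symm] at h1
        change ⟪n j, f⟫ / ρj * (⟪n k, f⟫ / ρk) + ⟪n j, g⟫ / ρj * (⟪n k, g⟫ / ρk) = -w
        have h2 : ⟪n j, f⟫ / ρj * (⟪n k, f⟫ / ρk) + ⟪n j, g⟫ / ρj * (⟪n k, g⟫ / ρk) =
            (⟪n j, f⟫ * ⟪n k, f⟫ + ⟪n j, g⟫ * ⟪n k, g⟫) / (ρj * ρk) := by
          field_simp
        rw [h2, hw, ← neg_div]
        congr 1
        simp only [hx]
        linarith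
      · exact div_nonpos_of_nonpos_of_nonneg (by linarith) (mul_pos hr hρj0).le
    · intro y hy
      rw [hiff, mem_inter_iff, hp_scale hr hρj0, hp_scale hr hρk0]
      constructor
      · intro h; exact ⟨h j, h k⟩
      · rintro ⟨h1, h2⟩ l
        by_cases hlj : l = j
        · rw [hlj]; exact h1
        by_cases hlk : l = k
        · rw [hlk]; exact h2
        have h3 := hrest l hlj hlk
        have h4 := (abs_lt.1 (hbd l y hy)).2
        nlinarith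
  · push Not at hk
    by_cases hx1 : 1 - x j ^ 2 ≤ 0
    · refine ⟨∅, Or.inl rfl, fun y hy => ?_⟩
      rw [hiff]
      simp only [mem_empty_iff_false, iff_false]
      intro h
      have h1 := h j
      have h2 := hnorm j
      have h3 : ⟪n j, f⟫ = (0 : ℝ) := by
        have : ⟪n j, f⟫ ^ 2 ≤ (0 : ℝ) := by nlinarith [sq_nonneg (⟪n j, g⟫ : ℝ)]
        exact pow_eq_zero_iff (two_ne_zero) |>.1 (le_antisymm this (sq_nonneg _))
      have h4 : ⟪n j, g⟫ = (0 : ℝ) := by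
        have : ⟪n j, g⟫ ^ 2 ≤ (0 : ℝ) := by nlinarith [sq_nonneg (⟪n j, f⟫ : ℝ)]
        exact pow_eq_zero_iff (two_ne_zero) |>.1 (le_antisymm this (sq_nonneg _))
      rw [h3, h4] at h1
      linarith
    · push Not at hx1
      set ρj := √(1 - x j ^ 2) with hρj
      have hρj0 : 0 < ρj := Real.sqrt_pos.2 hx1
      have hρj2 : ρj ^ 2 = 1 - x j ^ 2 := Real.sq_sqrt hx1.le
      refine ⟨hp (⟪n j, f⟫ / ρj, ⟪n j, g⟫ / ρj) (-s j / (r * ρj)), ?_, ?_⟩
      · right; left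
        refine ⟨_, _, ?_, ?_, rfl⟩
        · change (⟪n j, f⟫ / ρj) ^ 2 + (⟪n j, g⟫ / ρj) ^ 2 = 1
          rw [div_pow, div_pow, ← add_div, hnorm, ← hρj2]
          exact div_self (by positivity)
        · exact div_nonpos_of_nonpos_of_nonneg (by linarith) (mul_pos hr hρj0).le
      · intro y hy
        rw [hiff, hp_scale hr hρj0]
        constructor
        · intro h; exact h j
        · intro h1 l
          by_cases hlj : l = j
          · rw [hlj]; exact h1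
          have h3 := hk l hlj
          have h4 := (abs_lt.1 (hbd l y hy)).2
          nlinarith

end

end Pool.Agent.TetraPack
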