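import Pool.Agent.TetraPack.Tet

/-!
# The volume of a regular tetrahedron with edge one is at least `0.1178`
-/

namespace Pool.Agent.TetraPack

open MeasureTheory Set Real
open scoped ENNReal RealInnerProductSpace

lemma volume_cross : volume {x : Fin 3 → ℝ | ∑ i, |x i| < 1} = ENNReal.ofReal (4 / 3) := by
  have h := MeasureTheory.volume_sum_rpow_lt_one (Fin 3) (p := 1) le_rfl
  simp only [rpow_one, div_one, Fintype.card_fin] at h
  rw [h]
  congr 1
  have h1 : Gamma (1 + 1) = 1 := by norm_num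
  have h2 : Gamma ((3 : ℕ) + 1) = 6 := by
    rw [Real.Gamma_nat_eq_factorial]; norm_num [Nat.factorial]
  rw [h1, h2]; norm_num

/-- reflection of one coordinate -/
def refl3 (i : Fin 3) (x : Fin 3 → ℝ) : Fin 3 → ℝ := fun j => if j = i then -x j else x j

lemma measurePreserving_refl3 (i : Fin 3) : MeasurePreserving (refl3 i) := by
  have h := volume_preserving_pi (f := fun (j : Fin 3) (x : ℝ) => if j = i then -x else x)
    (fun j => by
      by_cases hji : j = i
      · simp only [hji, if_true]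
        exact Measure.measurePreserving_neg _
      · simp only [hji, if_false]
        exact MeasurePreserving.id _)
  exact h

lemma volume_le_two_mul (i : Fin 3) {S : Set (Fin 3 → ℝ)} (hS : MeasurableSet S)
    (hinv : ∀ x ∈ S, refl3 i x ∈ S) :
    volume S ≤ 2 * volume (S ∩ {x | 0 < x i}) := by
  have hm : MeasurableSet (S ∩ {x | 0 < x i}) :=
    hS.inter (measurableSet_lt measurable_const (measurable_pi_apply i))
  have h1 : S ⊆ ((S ∩ {x | 0 < x i}) ∪ refl3 i ⁻¹' (S ∩ {x | 0 < x i})) ∪ {x | x i = 0} := by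
    intro x hx
    rcases lt_trichotomy (x i) 0 with h | h | h
    · left; right
      refine ⟨hinv x hx, ?_⟩
      simp only [refl3, mem_ofPred_eq, if_true]
      linarith
    · right; exact h
    · left; left; exact ⟨hx, h⟩
  calc volume S ≤ _ := measure_mono h1
    _ ≤ volume ((S ∩ {x | 0 < x i}) ∪ refl3 i ⁻¹' (S ∩ {x | 0 < x i})) +
        volume {x : Fin 3 → ℝ | x i = 0} := measure_union_le _ _
    _ = volume ((S ∩ {x | 0 < x i}) ∪ refl3 i ⁻¹' (S ∩ {x | 0 < x i})) := by
        have : volume {x : Fin 3 → ℝ | x i = 0} = 0 := Measure.pi_hyperplane _ i 0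
        rw [this, add_zero]
    _ ≤ volume (S ∩ {x | 0 < x i}) + volume (refl3 i ⁻¹' (S ∩ {x | 0 < x i})) :=
        measure_union_le _ _
    _ = _ := by rw [(measurePreserving_refl3 i).measure_preimage hm.nullMeasurableSet, two_mul]

lemma volume_corner :
    ENNReal.ofReal (1 / 6) ≤ volume {x : Fin 3 → ℝ | (∀ i, 0 ≤ x i) ∧ ∑ i, x i ≤ 1} := by
  set S0 : Set (Fin 3 → ℝ) := {x | ∑ i, |x i| < 1} with hS0
  have hm0 : MeasurableSet S0 :=
    measurableSet_lt (Finset.measurable_sum _ fun i _ => (measurable_pi_apply i).abs)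
      measurable_const
  have hmi : ∀ i : Fin 3, MeasurableSet {x : Fin 3 → ℝ | 0 < x i} := fun i =>
    measurableSet_lt measurable_const (measurable_pi_apply i)
  have habs : ∀ (i : Fin 3) (x : Fin 3 → ℝ) (j : Fin 3), |refl3 i x j| = |x j| := by
    intro i x j; unfold refl3; split_ifs <;> simp
  have hinv0 : ∀ i : Fin 3, ∀ x ∈ S0, refl3 i x ∈ S0 := by
    intro i x hx
    simp only [hS0, mem_ofPred_eq, habs] at hx ⊢
    exact hx
  have hpos : ∀ i k : Fin 3, k ≠ i → ∀ x : Fin 3 → ℝ, 0 < x k → 0 < refl3 i x k := by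
    intro i k hki x hx
    unfold refl3; rw [if_neg hki]; exact hx
  have e1 := volume_le_two_mul 0 hm0 (hinv0 0)
  have e2 := volume_le_two_mul 1 (hm0.inter (hmi 0))
    (fun x hx => ⟨hinv0 1 x hx.1, hpos 1 0 (by decide) x hx.2⟩)
  have e3 := volume_le_two_mul 2 ((hm0.inter (hmi 0)).inter (hmi 1))
    (fun x hx => ⟨⟨hinv0 2 x hx.1.1, hpos 2 0 (by decide) x hx.1.2⟩,
      hpos 2 1 (by decide) x hx.2⟩)
  have hsub : S0 ∩ {x | 0 < x 0} ∩ {x | 0 < x 1} ∩ {x | 0 < x 2} ⊆
      {x : Fin 3 → ℝ | (∀ i, 0 ≤ x i) ∧ ∑ i, x i ≤ 1} := by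
    rintro x ⟨⟨⟨h0, h1⟩, h2⟩, h3⟩
    simp only [mem_ofPred_eq] at h1 h2 h3
    refine ⟨?_, ?_⟩
    · intro i
      have : i = 0 ∨ i = 1 ∨ i = 2 := by omega
      rcases this with rfl | rfl | rfl <;> linarith
    · simp only [hS0, mem_ofPred_eq] at h0
      exact (Finset.sum_le_sum fun i _ => le_abs_self (x i)).trans h0.le
  have h4 : ENNReal.ofReal (4 / 3) ≤
      2 * (2 * (2 * volume {x : Fin 3 → ℝ | (∀ i, 0 ≤ x i) ∧ ∑ i, x i ≤ 1})) := by
    rw [← volume_cross]
    refine e1.trans (mul_le_mul' le_rfl (e2.trans (mul_le_mul' le_rfl (e3.trans ?_))))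
    exact mul_le_mul' le_rfl (measure_mono hsub)
  set m := volume {x : Fin 3 → ℝ | (∀ i, 0 ≤ x i) ∧ ∑ i, x i ≤ 1} with hm
  rcases eq_or_ne m ⊤ with htop | htop
  · rw [htop]; exact le_top
  · have h5 : (2 : ℝ≥0∞) * (2 * (2 * m)) = ENNReal.ofReal (8 * m.toReal) := by
      rw [ENNReal.ofReal_mul (by norm_num), ENNReal.ofReal_toReal htop, ← mul_assoc, ← mul_assoc]
      norm_num
    rw [h5, ENNReal.ofReal_le_ofReal_iff (by positivity)] at h4
    rw [← ENNReal.ofReal_toReal htop]
    exact ENNReal.ofReal_le_ofReal (by linarith)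

theorem volume_tet {K : Set E3} {v n : Fin 4 → E3} {c : Fin 4 → ℝ} (T : Tet K v n c) :
    ENNReal.ofReal 0.1178 ≤ volume K := by
  set d : Fin 3 → E3 := fun j => v j.succ - v 0 with hd
  set A : Matrix (Fin 3) (Fin 3) ℝ := Matrix.of fun i j => (d j) i with hA
  have hinner : ∀ j k, ⟪d j, d k⟫ = if j = k then (1 : ℝ) else 1 / 2 := by
    intro j k
    by_cases hjk : j = k
    · subst hjk
      rw [if_pos rfl, real_inner_self_eq_norm_sq, hd]
      simp only
      rw [← dist_eq_norm, T.hv _ _ (Fin.succ_ne_zero j)]; norm_num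
    · rw [if_neg hjk]
      exact inner_of_dist T.hv 0 j.succ k.succ (Fin.succ_ne_zero j).symm (Fin.succ_ne_zero k).symm
        (by simpa using hjk)
  have hG : A.transpose * A = Matrix.of fun j k => if j = k then (1 : ℝ) else 1 / 2 := by
    ext j k
    rw [Matrix.mul_apply, Matrix.of_apply, ← hinner j k]
    simp only [Matrix.transpose_apply, hA, Matrix.of_apply, PiLp.inner_apply, RCLike.inner_apply,
      conj_trivial]
    refine Finset.sum_congr rfl fun i _ => by ring
  have hdet : A.det ^ 2 = 1 / 2 := by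
    have h1 : (A.transpose * A).det = A.det ^ 2 := by
      rw [Matrix.det_mul, Matrix.det_transpose, sq]
    rw [← h1, hG, Matrix.det_fin_three]
    simp
    norm_num
  have hdet' : 0.7068 ≤ |A.det| := by
    have h1 : |A.det| ^ 2 = 1 / 2 := by rw [sq_abs]; exact hdet
    have h2 := abs_nonneg A.det
    nlinarith
  set C : Set (Fin 3 → ℝ) := {x | (∀ i, 0 ≤ x i) ∧ ∑ i, x i ≤ 1} with hC
  have hvolC : ENNReal.ofReal 0.1178 ≤ volume (Matrix.toLin' A '' C) := by
    rw [Measure.addHaar_image_linearMap, LinearMap.det_toLin']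
    calc ENNReal.ofReal 0.1178 ≤ ENNReal.ofReal (|A.det| * (1 / 6)) :=
          ENNReal.ofReal_le_ofReal (by linarith)
      _ = ENNReal.ofReal |A.det| * ENNReal.ofReal (1 / 6) := ENNReal.ofReal_mul (abs_nonneg _)
      _ ≤ _ := mul_le_mul' le_rfl volume_corner
  -- the translated image in `E3`
  have hmp : MeasurePreserving (fun x : E3 => WithLp.ofLp (x - v 0)) :=
    (PiLp.volume_preserving_ofLp (Fin 3)).comp (measurePreserving_sub_right volume (v 0))
  have hCcomp : IsCompact C := by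
    have : C ⊆ Icc (fun _ => 0) (fun _ => 1) := by
      rintro x ⟨h1, h2⟩
      refine ⟨fun i => h1 i, fun i => ?_⟩
      exact (Finset.single_le_sum (fun j _ => h1 j) (Finset.mem_univ i)).trans h2
    refine isCompact_Icc.of_isClosed_subset ?_ this
    have e : C = (⋂ i, {x : Fin 3 → ℝ | 0 ≤ x i}) ∩ {x | ∑ i, x i ≤ 1} := by
      ext x; simp [hC]
    rw [e]
    refine (isClosed_iInter fun i => isClosed_le continuous_const (continuous_apply i)).inter
      (isClosed_le (continuous_finsetSum _ fun i _ => continuous_apply i) continuous_const)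
  have hmeas : MeasurableSet (Matrix.toLin' A '' C) :=
    (hCcomp.image (LinearMap.continuous_of_finiteDimensional _)).measurableSet
  rw [← hmp.measure_preimage hmeas.nullMeasurableSet] at hvolC
  refine hvolC.trans (measure_mono ?_)
  rintro x ⟨y, ⟨hy0, hy1⟩, hyx⟩
  have hx : x = v 0 + ∑ j, y j • d j := by
    have h1 : x - v 0 = ∑ j, y j • d j := by
      apply (WithLp.ofLp_injective 2)
      refine hyx.symm.trans ?_
      ext i
      simp [Matrix.mulVec, dotProduct, hA, mul_comm]
    rw [← h1]; abel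
  rw [T.half, hx]
  intro j
  rw [inner_add_right, inner_sum]
  simp only [real_inner_smul_right, hd, inner_sub_right]
  have hh : 0 < √(2 / 3 : ℝ) := Real.sqrt_pos.2 (by norm_num)
  rw [Fin.sum_univ_three] at hy1 ⊢
  have g0 := hy0 0
  have g1 := hy0 1
  have g2 := hy0 2
  have s0 : (Fin.succ 0 : Fin 4) = 1 := rfl
  have s1 : (Fin.succ 1 : Fin 4) = 2 := rfl
  have s2 : (Fin.succ 2 : Fin 4) = 3 := rfl
  rw [s0, s1, s2]
  have : j = 0 ∨ j = 1 ∨ j = 2 ∨ j = 3 := by omega
  rcases this with rfl | rfl | rfl | rfl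
  · rw [T.opp 0, T.off 0 1 (by decide), T.off 0 2 (by decide), T.off 0 3 (by decide)]
    nlinarith
  · rw [T.opp 1, T.off 1 0 (by decide), T.off 1 2 (by decide), T.off 1 3 (by decide)]
    nlinarith
  · rw [T.opp 2, T.off 2 0 (by decide), T.off 2 1 (by decide), T.off 2 3 (by decide)]
    nlinarith
  · rw [T.opp 3, T.off 3 0 (by decide), T.off 3 1 (by decide), T.off 3 2 (by decide)]
    nlinarith

end Pool.Agent.TetraPack
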