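import Pool.Agent.TetraPack.Arc

/-!
# Arcs of half planes and wedges
-/

namespace Pool.Agent.TetraPack

open MeasureTheory Set Real
open scoped ENNReal

/-- The open half plane `{y : a · y < p}`. -/
def hp (a : ℝ × ℝ) (p : ℝ) : Set (ℝ × ℝ) := {y | a.1 * y.1 + a.2 * y.2 < p}

lemma isOpen_hp (a : ℝ × ℝ) (p : ℝ) : IsOpen (hp a p) := by
  have : Continuous (fun y : ℝ × ℝ => a.1 * y.1 + a.2 * y.2) := by fun_prop
  exact isOpen_lt this continuous_const

lemma measurableSet_hp (a : ℝ × ℝ) (p : ℝ) : MeasurableSet (hp a p) := (isOpen_hp a p).measurableSet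

/-- Rotation invariance of the angular measure. -/
lemma volume_shift {A : Set ℝ} (hA : MeasurableSet A) (hper : ∀ φ, φ + 2 * π ∈ A ↔ φ ∈ A) (β : ℝ) :
    volume {φ : ℝ | φ ∈ Ioo (-π) π ∧ φ + β ∈ A} = volume {φ : ℝ | φ ∈ Ioo (-π) π ∧ φ ∈ A} := by
  have hpi : (0 : ℝ) < 2 * π := by positivity
  have hinv : ∀ g : AddSubgroup.zmultiples (2 * π), (fun x : ℝ => g +ᵥ x) ⁻¹' A = A := by
    rintro ⟨g, hg⟩
    obtain ⟨k, rfl⟩ := AddSubgroup.mem_zmultiples_iff.1 hg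
    ext x
    change (k • (2 * π)) + x ∈ A ↔ x ∈ A
    have hn : ∀ (n : ℕ) (x : ℝ), (n : ℝ) * (2 * π) + x ∈ A ↔ x ∈ A := by
      intro n
      induction n with
      | zero => intro x; simp
      | succ n ih =>
        intro x
        rw [← ih x, ← hper ((n : ℝ) * (2 * π) + x)]
        push_cast
        ring_nf
    rw [zsmul_eq_mul]
    obtain ⟨n, rfl | rfl⟩ := k.eq_nat_or_neg
    · simpa using hn n x
    · have := hn n (((-(n : ℤ) : ℤ) : ℝ) * (2 * π) + x)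
      push_cast at this ⊢
      rw [← this]
      ring_nf
  have h1 : volume {φ : ℝ | φ ∈ Ioo (-π) π ∧ φ ∈ A} = volume (A ∩ Ioc (-π) (-π + 2 * π)) := by
    have e : {φ : ℝ | φ ∈ Ioo (-π) π ∧ φ ∈ A} = A ∩ Ioo (-π) π := by
      ext φ; exact and_comm
    rw [e]
    have e2 : -π + 2 * π = π := by ring
    rw [e2]
    exact measure_congr (Filter.EventuallyEq.inter (ae_eq_refl A) Ioo_ae_eq_Ioc)
  have h2 : volume {φ : ℝ | φ ∈ Ioo (-π) π ∧ φ + β ∈ A} =
      volume (A ∩ Ioc (-π + β) (-π + β + 2 * π)) := by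
    have e : {φ : ℝ | φ ∈ Ioo (-π) π ∧ φ + β ∈ A} = (fun φ => φ + β) ⁻¹' (A ∩ Ioo (-π + β) (π + β)) := by
      ext φ
      simp only [mem_ofPred_eq, mem_preimage, mem_inter_iff, mem_Ioo]
      constructor
      · rintro ⟨⟨h1, h2⟩, h3⟩; exact ⟨h3, by linarith, by linarith⟩
      · rintro ⟨h3, h1, h2⟩; exact ⟨⟨by linarith, by linarith⟩, h3⟩
    rw [e, measure_preimage_add_right]
    have e2 : -π + β + 2 * π = π + β := by ring
    rw [e2]
    exact measure_congr (Filter.EventuallyEq.inter (ae_eq_refl A) Ioo_ae_eq_Ioc)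
  rw [h1, h2]
  have f1 := isAddFundamentalDomain_Ioc hpi (-π + β) volume
  have f2 := isAddFundamentalDomain_Ioc hpi (-π) volume
  exact f1.measure_set_eq f2 hA hinv

lemma volume_reflect (P : ℝ → Prop) :
    volume {φ : ℝ | φ ∈ Ioo (-π) π ∧ P (-φ)} = volume {φ : ℝ | φ ∈ Ioo (-π) π ∧ P φ} := by
  have e : {φ : ℝ | φ ∈ Ioo (-π) π ∧ P (-φ)} = -{φ : ℝ | φ ∈ Ioo (-π) π ∧ P φ} := by
    ext φ
    simp only [mem_ofPred_eq, mem_neg, mem_Ioo]
    constructor
    · rintro ⟨⟨h1, h2⟩, h3⟩; exact ⟨⟨by linarith, by linarith⟩, h3⟩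
    · rintro ⟨⟨h1, h2⟩, h3⟩; exact ⟨⟨by linarith, by linarith⟩, h3⟩
  rw [e, Measure.measure_neg]

/-- The standard position of a wedge. -/
def std (c d δ : ℝ) : Set ℝ := {φ | φ ∈ Ioo (-π) π ∧ c < cos φ ∧ d < cos (φ - δ)}

lemma abs_lt_arccos {c φ : ℝ} (h1 : -π < φ) (h2 : φ < π) (h : c < cos φ) : |φ| < arccos c := by
  by_contra hcon
  push Not at hcon
  have h0 : |φ| ≤ π := abs_le.2 ⟨h1.le, h2.le⟩
  have h3 : cos |φ| ≤ cos (arccos c) := cos_le_cos_of_nonneg_of_le_pi (arccos_nonneg c) h0 hcon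
  rw [cos_abs] at h3
  rcases le_or_gt c 1 with hc | hc
  · rcases le_or_gt (-1) c with hc' | hc'
    · rw [cos_arccos hc' hc] at h3; linarith
    · rw [arccos_of_le_neg_one hc'.le] at hcon
      have : |φ| < π := abs_lt.2 ⟨h1, h2⟩
      linarith
  · have := cos_le_one φ; linarith

lemma lt_cos_of_lt_arccos {c x : ℝ} (h0 : 0 ≤ x) (h : x < arccos c) : c < cos x := by
  have hpi := arccos_le_pi c
  have h3 : cos (arccos c) < cos x := cos_lt_cos_of_nonneg_of_le_pi h0 hpi h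
  rcases le_or_gt c 1 with hc | hc
  · rcases le_or_gt (-1) c with hc' | hc'
    · rwa [cos_arccos hc' hc] at h3
    · have := neg_one_le_cos x; linarith
  · rw [arccos_of_one_le hc.le] at h; linarith

lemma std_subset {c d δ : ℝ} (hc : 0 ≤ c) (hδ1 : π / 2 < δ) (hδ2 : δ < π)
    (hw : arccos d ≤ 3 * π / 2 - δ) :
    std c d δ ⊆ Ioo (max (-arccos c) (δ - arccos d)) (arccos c) := by
  rintro φ ⟨⟨h1, h2⟩, h3, h4⟩
  have h5 := abs_lt.1 (abs_lt_arccos h1 h2 h3)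
  have h6 : arccos c ≤ π / 2 := arccos_le_pi_div_two.2 hc
  refine ⟨max_lt h5.1 ?_, h5.2⟩
  have h7 : 0 < δ - φ := by linarith
  have h8 : d < cos (δ - φ) := by rw [← cos_neg]; simpa using h4
  rcases lt_or_ge (δ - φ) π with h9 | h9
  · have := abs_lt_arccos (by linarith) h9 h8
    rw [abs_of_pos h7] at this
    linarith
  · exfalso
    have h10 : d < cos (2 * π - (δ - φ)) := by rwa [cos_two_pi_sub]
    by_cases h13 : 2 * π - (δ - φ) < π
    · have h11 := abs_lt_arccos (by linarith) h13 h10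
      have h12 : 2 * π - (δ - φ) ≤ |2 * π - (δ - φ)| := le_abs_self _
      linarith
    · have h14 : δ - φ = π := by linarith
      rw [h14, cos_pi] at h8
      have := arccos_of_le_neg_one h8.le
      linarith

lemma subset_std {c d δ : ℝ} (hc : 0 ≤ c) (hδ1 : π / 2 < δ) (hδ2 : δ < π) :
    Ioo (max (-arccos c) (δ - arccos d)) (arccos c) ⊆ std c d δ := by
  rintro φ ⟨h1, h2⟩
  have h6 : arccos c ≤ π / 2 := arccos_le_pi_div_two.2 hc
  have h3 := (max_lt_iff.1 h1).1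
  have h4 := (max_lt_iff.1 h1).2
  have hpi := Real.pi_pos
  refine ⟨⟨by linarith, by linarith⟩, ?_, ?_⟩
  · rw [← cos_abs]
    exact lt_cos_of_lt_arccos (abs_nonneg _) (abs_lt.2 ⟨h3, h2⟩)
  · have h7 : 0 ≤ δ - φ := by linarith
    have := lt_cos_of_lt_arccos (c := d) h7 (by linarith)
    rwa [← cos_neg, neg_sub] at this

lemma std_subset' (c d δ : ℝ) : std c d δ ⊆ Ioo (-arccos c) (arccos c) := by
  rintro φ ⟨⟨h1, h2⟩, h3, h4⟩
  have h5 := abs_lt.1 (abs_lt_arccos h1 h2 h3)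
  exact ⟨h5.1, h5.2⟩

lemma std_of_lt {c d δ : ℝ} (hd : d < -1) : std c d δ = {φ | φ ∈ Ioo (-π) π ∧ c < cos φ} := by
  ext φ
  simp only [std, mem_ofPred_eq]
  have := neg_one_le_cos (φ - δ)
  constructor
  · rintro ⟨h1, h2, h3⟩; exact ⟨h1, h2⟩
  · rintro ⟨h1, h2⟩; exact ⟨h1, h2, by linarith⟩

lemma volume_half (c : ℝ) :
    volume {φ : ℝ | φ ∈ Ioo (-π) π ∧ c < cos φ} = ENNReal.ofReal (2 * arccos c) := by
  have e : {φ : ℝ | φ ∈ Ioo (-π) π ∧ c < cos φ} = Ioo (-arccos c) (arccos c) := by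
    ext φ
    constructor
    · rintro ⟨⟨h1, h2⟩, h3⟩
      have h5 := abs_lt.1 (abs_lt_arccos h1 h2 h3)
      exact ⟨h5.1, h5.2⟩
    · rintro ⟨h1, h2⟩
      have h3 := arccos_le_pi c
      refine ⟨⟨by linarith, by linarith⟩, ?_⟩
      rw [← cos_abs]
      exact lt_cos_of_lt_arccos (abs_nonneg _) (abs_lt.2 ⟨h1, h2⟩)
  rw [e, Real.volume_Ioo]
  congr 1
  ring

lemma exists_angle {a : ℝ × ℝ} (ha : a.1 ^ 2 + a.2 ^ 2 = 1) :
    ∃ β : ℝ, a.1 = -cos β ∧ a.2 = -sin β := by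
  have h := Complex.norm_eq_one_iff (⟨-a.1, -a.2⟩ : ℂ)
  have h1 : ‖(⟨-a.1, -a.2⟩ : ℂ)‖ = 1 := by
    rw [Complex.norm_def, Complex.normSq_mk]
    have : -a.1 * -a.1 + -a.2 * -a.2 = 1 := by linarith [ha]
    rw [this, Real.sqrt_one]
  obtain ⟨θ, hθ⟩ := h.1 h1
  refine ⟨θ, ?_, ?_⟩
  · have := congrArg Complex.re hθ
    rw [Complex.exp_ofReal_mul_I_re] at this
    simp at this; linarith
  · have := congrArg Complex.im hθ
    rw [Complex.exp_ofReal_mul_I_im] at this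
    simp at this; linarith

lemma mem_hp_iff {a : ℝ × ℝ} {β p s φ : ℝ} (h1 : a.1 = -cos β) (h2 : a.2 = -sin β) (hs : 0 < s) :
    (s * cos φ, s * sin φ) ∈ hp a p ↔ -p / s < cos (φ - β) := by
  change a.1 * (s * cos φ) + a.2 * (s * sin φ) < p ↔ _
  rw [h1, h2, cos_sub, div_lt_iff₀ hs]
  constructor <;> intro h <;> nlinarith

theorem arc_hp {a : ℝ × ℝ} (ha : a.1 ^ 2 + a.2 ^ 2 = 1) {p s : ℝ} (hs : 0 < s) :
    arc (hp a p) s = π - 2 * arcsin (-p / s) := by
  obtain ⟨β, h1, h2⟩ := exists_angle ha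
  have e : arcSet (hp a p) s = {φ : ℝ | φ ∈ Ioo (-π) π ∧ φ + (-β) ∈ {ψ : ℝ | -p / s < cos ψ}} := by
    ext φ
    simp only [arcSet, mem_ofPred_eq, mem_hp_iff h1 h2 hs, sub_eq_add_neg]
  unfold arc
  rw [e, volume_shift (measurableSet_lt measurable_const measurable_cos)
    (fun φ => by simp [cos_add_two_pi])]
  change (volume {φ : ℝ | φ ∈ Ioo (-π) π ∧ -p / s < cos φ}).toReal = _
  rw [volume_half, ENNReal.toReal_ofReal (by have := arccos_nonneg (-p / s); linarith), arccos]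
  ring

/-- Reduction of a wedge to the standard position. -/
theorem arc_wedge_eq {a b : ℝ × ℝ} (ha : a.1 ^ 2 + a.2 ^ 2 = 1) (hb : b.1 ^ 2 + b.2 ^ 2 = 1)
    {α p q s : ℝ} (hab : a.1 * b.1 + a.2 * b.2 = -cos α) (hs : 0 < s) :
    arc (hp a p ∩ hp b q) s = (volume (std (-p / s) (-q / s) (π - α))).toReal := by
  obtain ⟨β, h1, h2⟩ := exists_angle ha
  obtain ⟨γ, h3, h4⟩ := exists_angle hb
  have hcos : cos (β - γ) = cos (π - α) := by
    rw [cos_sub, cos_pi_sub, ← hab, h1, h2, h3, h4]; ring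
  have e : arcSet (hp a p ∩ hp b q) s = {φ : ℝ | φ ∈ Ioo (-π) π ∧ φ + (-β) ∈
      {ψ : ℝ | -p / s < cos ψ ∧ -q / s < cos (ψ + (β - γ))}} := by
    ext φ
    simp only [arcSet, mem_ofPred_eq, mem_inter_iff, mem_hp_iff h1 h2 hs, mem_hp_iff h3 h4 hs]
    have : φ + -β + (β - γ) = φ - γ := by ring
    rw [this, ← sub_eq_add_neg]
  unfold arc
  rw [e, volume_shift ?_ ?_]
  · congr 1
    obtain ⟨k, hk | hk⟩ := cos_eq_cos_iff.1 hcos
    · -- π - α = 2kπ + (β - γ)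
      have hr := volume_reflect (fun φ => -p / s < cos φ ∧ -q / s < cos (φ - (π - α)))
      change _ = volume {φ : ℝ | φ ∈ Ioo (-π) π ∧
        (fun φ => -p / s < cos φ ∧ -q / s < cos (φ - (π - α))) φ}
      rw [← hr]
      congr 1
      ext φ
      simp only [mem_ofPred_eq]
      have e1 : cos (-φ - (π - α)) = cos (φ + (β - γ)) := by
        rw [hk, ← cos_neg]
        have : -(-φ - (2 * (k : ℝ) * π + (β - γ))) = φ + (β - γ) + (k : ℝ) * (2 * π) := by ring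
        rw [this, cos_add_int_mul_two_pi]
      rw [e1, cos_neg]
    · congr 1
      ext φ
      simp only [std, mem_ofPred_eq]
      have e1 : cos (φ - (π - α)) = cos (φ + (β - γ)) := by
        rw [hk]
        have : φ - (2 * (k : ℝ) * π - (β - γ)) = φ + (β - γ) - (k : ℝ) * (2 * π) := by ring
        rw [this, cos_sub_int_mul_two_pi]
      rw [e1]
  · refine (measurableSet_lt measurable_const measurable_cos).inter ?_
    exact measurableSet_lt measurable_const (measurable_cos.comp (measurable_id.add_const _))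
  · intro φ
    simp only [mem_ofPred_eq]
    have : φ + 2 * π + (β - γ) = φ + (β - γ) + 2 * π := by ring
    rw [this, cos_add_two_pi, cos_add_two_pi]

end Pool.Agent.TetraPack
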